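import Mathlib
import Pool.Agent.Run7.h462.BPD.Stm
import Pool.Agent.Run7.h994.BP.ES

/-!
Project BPD, piece ES (helper994): exponential sums over primes with the phases `s h n^(1/d)`, on average over `h`,
for `4 H² ≤ X`.
-/

set_option autoImplicit false

namespace Run7.h994.BPD

open Finset Filter Topology
open Pool.Agent.H469R2.NK (e)
open Run7.h757.BP (S_VAU)
open Run7.h462.BPD
open Run7.h994.BP (sqrt_sqrt_facts sum_inv_le)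

/-- **ES** with the condition `4 H² ≤ X` -/
def S_ES4 (s : ℝ) (d : ℕ) : Prop := ∀ ε : ℝ, 0 < ε → ∃ C : ℝ, 1 ≤ C ∧ ∀ (X X' H : ℕ) (c : ℕ → ℂ), 1 ≤ H →
  4 * H ^ 2 ≤ X → X ≤ X' → X' ≤ 2 * X → (∀ h, ‖c h‖ ≤ 1) →
  ‖∑ n ∈ Ioc X X', ((ArithmeticFunction.vonMangoldt n : ℝ) : ℂ) * EE s d H c n‖ ≤
    C * (X : ℝ) ^ ε * (H * (X : ℝ) ^ (3 / 4 : ℝ) + √(H : ℝ) * (X : ℝ) ^ (7 / 8 : ℝ))

/-- type I sums of `EE` -/
lemma typeI_EE {s : ℝ} {d : ℕ} {C₂ : ℝ} (hC₂ : 1 ≤ C₂)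
    (hTI : ∀ (X X' h k b : ℕ), 1 ≤ X → X' ≤ 2 * X → 1 ≤ h → h ^ 2 ≤ X → 1 ≤ k → k ^ 4 ≤ X →
      b ≤ X' / k →
      ‖∑ l ∈ Ioc (X / k) b, e (s * h * ((k * l : ℕ) : ℝ) ^ (1 / (d : ℝ)))‖ ≤
        C₂ * (√(h : ℝ) * (X : ℝ) ^ (1 / 4 : ℝ) + (X : ℝ) ^ (7 / 8 : ℝ) / (√(h : ℝ) * k)) * (1 + Real.log X))
    (X X' H m b : ℕ) (c : ℕ → ℂ) (hX : 1 ≤ X) (hX' : X' ≤ 2 * X) (hH : 1 ≤ H) (hHX : 4 * H ^ 2 ≤ X)
    (hm : 1 ≤ m) (hmX : m ^ 4 ≤ X) (hb : b ≤ X' / m) (hc : ∀ h, ‖c h‖ ≤ 1) :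
    ‖∑ l ∈ Ioc (X / m) b, EE s d H c (m * l)‖ ≤
      C₂ * (1 + Real.log X) * (2 * (H * √(H : ℝ)) * (X : ℝ) ^ (1 / 4 : ℝ) +
        √(H : ℝ) * (X : ℝ) ^ (7 / 8 : ℝ) * (1 / m)) := by
  have hXr : (1 : ℝ) ≤ X := by exact_mod_cast hX
  have hlog : 0 ≤ Real.log X := Real.log_nonneg hXr
  have hH0 : (0 : ℝ) < H := by exact_mod_cast hH
  have hm0 : (0 : ℝ) < m := by exact_mod_cast hm
  have e1 : ∑ l ∈ Ioc (X / m) b, EE s d H c (m * l) =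
      ∑ h ∈ Ico H (2 * H), c h * ∑ l ∈ Ioc (X / m) b, e (s * h * ((m * l : ℕ) : ℝ) ^ (1 / (d : ℝ))) := by
    unfold EE
    rw [Finset.sum_comm]
    apply Finset.sum_congr rfl
    intro h _
    rw [Finset.mul_sum]
  rw [e1]
  calc ‖∑ h ∈ Ico H (2 * H), c h * ∑ l ∈ Ioc (X / m) b, e (s * h * ((m * l : ℕ) : ℝ) ^ (1 / (d : ℝ)))‖
      ≤ ∑ h ∈ Ico H (2 * H), ‖c h * ∑ l ∈ Ioc (X / m) b, e (s * h * ((m * l : ℕ) : ℝ) ^ (1 / (d : ℝ)))‖ :=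
        norm_sum_le _ _
    _ ≤ ∑ h ∈ Ico H (2 * H), C₂ * (2 * √(H : ℝ) * (X : ℝ) ^ (1 / 4 : ℝ) +
          (X : ℝ) ^ (7 / 8 : ℝ) / (√(H : ℝ) * m)) * (1 + Real.log X) := by
        apply Finset.sum_le_sum
        intro h hh
        rw [Finset.mem_Ico] at hh
        have h1 : 1 ≤ h := by omega
        have h2 : h ^ 2 ≤ X := by
          calc h ^ 2 ≤ (2 * H) ^ 2 := Nat.pow_le_pow_left (by omega) 2
            _ = 4 * H ^ 2 := by ring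
            _ ≤ X := hHX
        have h3 := hTI X X' h m b hX hX' h1 h2 hm hmX hb
        rw [norm_mul]
        have hHh : √(H : ℝ) ≤ √(h : ℝ) := Real.sqrt_le_sqrt (by exact_mod_cast hh.1)
        have hHs : 0 < √(H : ℝ) := Real.sqrt_pos.mpr hH0
        have hh2 : √(h : ℝ) ≤ 2 * √(H : ℝ) := by
          rw [Real.sqrt_le_iff]
          refine ⟨by positivity, ?_⟩
          have : (2 * √(H : ℝ)) ^ 2 = 4 * H := by
            rw [mul_pow, Real.sq_sqrt hH0.le]; norm_num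
          rw [this]
          have : (h : ℝ) ≤ 2 * H := by exact_mod_cast hh.2.le
          linarith
        calc ‖c h‖ * ‖∑ l ∈ Ioc (X / m) b, e (s * h * ((m * l : ℕ) : ℝ) ^ (1 / (d : ℝ)))‖
            ≤ 1 * ‖∑ l ∈ Ioc (X / m) b, e (s * h * ((m * l : ℕ) : ℝ) ^ (1 / (d : ℝ)))‖ := by
              apply mul_le_mul_of_nonneg_right (hc h) (norm_nonneg _)
          _ = ‖∑ l ∈ Ioc (X / m) b, e (s * h * ((m * l : ℕ) : ℝ) ^ (1 / (d : ℝ)))‖ := one_mul _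
          _ ≤ _ := h3
          _ ≤ _ := by
              gcongr
    _ = C₂ * (1 + Real.log X) * (2 * (H * √(H : ℝ)) * (X : ℝ) ^ (1 / 4 : ℝ) +
        √(H : ℝ) * (X : ℝ) ^ (7 / 8 : ℝ) * (1 / m)) := by
        rw [Finset.sum_const, Nat.card_Ico, nsmul_eq_mul]
        have hcard : ((2 * H - H : ℕ) : ℝ) = H := by
          congr 1; omega
        rw [hcard]
        have hs : √(H : ℝ) * √(H : ℝ) = H := Real.mul_self_sqrt hH0.le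
        have hs0 : √(H : ℝ) ≠ 0 := (Real.sqrt_pos.mpr hH0).ne'
        have key : (H : ℝ) * ((X : ℝ) ^ (7 / 8 : ℝ) / (√(H : ℝ) * m)) =
            √(H : ℝ) * (X : ℝ) ^ (7 / 8 : ℝ) * (1 / m) := by
          have h5 : √(H : ℝ) * (X : ℝ) ^ (7 / 8 : ℝ) * (1 / m) =
              (√(H : ℝ) * √(H : ℝ)) * ((X : ℝ) ^ (7 / 8 : ℝ) / (√(H : ℝ) * m)) := by
            field_simp
          rw [h5, hs]
        calc (H : ℝ) * (C₂ * (2 * √(H : ℝ) * (X : ℝ) ^ (1 / 4 : ℝ) +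
              (X : ℝ) ^ (7 / 8 : ℝ) / (√(H : ℝ) * m)) * (1 + Real.log X)) =
            C₂ * (1 + Real.log X) * (2 * (H * √(H : ℝ)) * (X : ℝ) ^ (1 / 4 : ℝ) +
              (H : ℝ) * ((X : ℝ) ^ (7 / 8 : ℝ) / (√(H : ℝ) * m))) := by ring
          _ = _ := by rw [key]

lemma log_absorb6 (ε C₁ : ℝ) (hε : 0 < ε) (hC₁ : 0 < C₁) (X : ℕ) (hX : 1 ≤ X) :
    ((C₁ + 1) * (2 * (X : ℝ)) ^ (ε / 2)) * (1 + Real.log (4 * X)) ^ 6 ≤
      (C₁ + 1) * (1 + 12 / ε) ^ 6 * (4 : ℝ) ^ ε * (X : ℝ) ^ ε := by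
  have hXr : (1 : ℝ) ≤ X := by exact_mod_cast hX
  have h4 : (1 : ℝ) ≤ 4 * X := by linarith
  have h1 : (1 : ℝ) ≤ (4 * (X : ℝ)) ^ (ε / 12) := Real.one_le_rpow h4 (by positivity)
  have h2 : Real.log (4 * X) ≤ (12 / ε) * (4 * (X : ℝ)) ^ (ε / 12) := by
    have := Real.log_le_rpow_div (x := 4 * (X : ℝ)) (ε := ε / 12) (by linarith) (by positivity)
    calc Real.log (4 * X) ≤ _ := this
      _ = _ := by field_simp
  have hlog : 0 ≤ Real.log (4 * X) := Real.log_nonneg h4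
  have h3 : 1 + Real.log (4 * X) ≤ (1 + 12 / ε) * (4 * (X : ℝ)) ^ (ε / 12) := by
    have : (1 + 12 / ε) * (4 * (X : ℝ)) ^ (ε / 12) =
        (4 * (X : ℝ)) ^ (ε / 12) + (12 / ε) * (4 * (X : ℝ)) ^ (ε / 12) := by ring
    rw [this]; linarith
  have h5 : (1 + Real.log (4 * X)) ^ 6 ≤ (1 + 12 / ε) ^ 6 * (4 * (X : ℝ)) ^ (ε / 2) := by
    calc (1 + Real.log (4 * X)) ^ 6 ≤ ((1 + 12 / ε) * (4 * (X : ℝ)) ^ (ε / 12)) ^ 6 := by
          gcongr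
      _ = (1 + 12 / ε) ^ 6 * ((4 * (X : ℝ)) ^ (ε / 12)) ^ 6 := by rw [mul_pow]
      _ = (1 + 12 / ε) ^ 6 * (4 * (X : ℝ)) ^ (ε / 2) := by
          rw [← Real.rpow_natCast ((4 * (X : ℝ)) ^ (ε / 12)) 6, ← Real.rpow_mul (by linarith)]
          congr 2
          push_cast
          ring
  have h6 : (2 * (X : ℝ)) ^ (ε / 2) ≤ (4 * (X : ℝ)) ^ (ε / 2) :=
    Real.rpow_le_rpow (by linarith) (by linarith) (by positivity)
  calc ((C₁ + 1) * (2 * (X : ℝ)) ^ (ε / 2)) * (1 + Real.log (4 * X)) ^ 6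
      ≤ ((C₁ + 1) * (4 * (X : ℝ)) ^ (ε / 2)) * ((1 + 12 / ε) ^ 6 * (4 * (X : ℝ)) ^ (ε / 2)) := by
        gcongr
    _ = (C₁ + 1) * (1 + 12 / ε) ^ 6 * ((4 * (X : ℝ)) ^ (ε / 2) * (4 * (X : ℝ)) ^ (ε / 2)) := by ring
    _ = (C₁ + 1) * (1 + 12 / ε) ^ 6 * (4 * (X : ℝ)) ^ ε := by
        rw [← Real.rpow_add (by linarith)]
        congr 2
        ring
    _ = (C₁ + 1) * (1 + 12 / ε) ^ 6 * (4 : ℝ) ^ ε * (X : ℝ) ^ ε := by
        rw [Real.mul_rpow (by norm_num) (by linarith)]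
        ring

theorem es4 {s : ℝ} {d : ℕ} (hVAU : S_VAU) (hBIL : S_BIL s d) (hTI : S_TI s d) : S_ES4 s d := by
  intro ε hε
  obtain ⟨C₃, hC₃, hB⟩ := hBIL
  obtain ⟨C₂, hC₂, hT⟩ := hTI
  obtain ⟨C₁, hC₁, hD⟩ := Pool.Agent.Helper112.divisor_bound (ε / 2) (by positivity)
  refine ⟨(20 * C₃ + 9 * C₂) * ((C₁ + 1) * (1 + 12 / ε) ^ 6 * (4 : ℝ) ^ ε), ?_, ?_⟩
  · have h1 : (1 : ℝ) ≤ (1 + 12 / ε) ^ 6 := one_le_pow₀ (by
      have : 0 < 12 / ε := by positivity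
      linarith)
    have h2 : (1 : ℝ) ≤ (4 : ℝ) ^ ε := Real.one_le_rpow (by norm_num) hε.le
    have h3 : (1 : ℝ) ≤ (C₁ + 1) * (1 + 12 / ε) ^ 6 * (4 : ℝ) ^ ε := by
      apply one_le_mul_of_one_le_of_one_le _ h2
      apply one_le_mul_of_one_le_of_one_le _ h1
      linarith
    apply one_le_mul_of_one_le_of_one_le _ h3
    linarith
  intro X X' H c hH hHX4 hXX' hX' hc
  have hHX : H ^ 2 ≤ X := by omega
  have hX : 1 ≤ X := le_trans (Nat.one_le_pow 2 H hH) hHX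
  have hXr : (1 : ℝ) ≤ X := by exact_mod_cast hX
  have hX0 : (0 : ℝ) < X := by linarith
  have hHr : (1 : ℝ) ≤ H := by exact_mod_cast hH
  have hHXr : (H : ℝ) ^ 2 ≤ X := by exact_mod_cast hHX
  have hlog4 : 0 ≤ Real.log (4 * X) := Real.log_nonneg (by linarith)
  have hlog : 0 ≤ Real.log X := Real.log_nonneg hXr
  have hlogle : Real.log X ≤ Real.log (4 * X) := Real.log_le_log (by linarith) (by linarith)
  obtain ⟨L, hL⟩ : ∃ L, L = 1 + Real.log (4 * X) := ⟨_, rfl⟩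
  obtain ⟨Q, hQ⟩ : ∃ Q, Q = H * (X : ℝ) ^ (3 / 4 : ℝ) + √(H : ℝ) * (X : ℝ) ^ (7 / 8 : ℝ) := ⟨_, rfl⟩
  obtain ⟨T, hTd⟩ : ∃ T, T = (C₁ + 1) * (2 * (X : ℝ)) ^ (ε / 2) := ⟨_, rfl⟩
  have hL1 : 1 ≤ L := by rw [hL]; linarith
  have hQ0 : 0 ≤ Q := by rw [hQ]; positivity
  have hT1 : 1 ≤ T := by
    rw [hTd]
    apply one_le_mul_of_one_le_of_one_le (by linarith)
    exact Real.one_le_rpow (by linarith) (by positivity)
  have hsHX : √(H : ℝ) ≤ (X : ℝ) ^ (1 / 4 : ℝ) := by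
    rw [Real.sqrt_le_left (by positivity), ← Real.rpow_natCast, ← Real.rpow_mul hX0.le]
    have h1 : (H : ℝ) ≤ √(X : ℝ) := Real.le_sqrt_of_sq_le hHXr
    rw [Real.sqrt_eq_rpow] at h1
    refine h1.trans (le_of_eq ?_)
    congr 1
    norm_num
  have hLpow : ∀ k : ℕ, 1 ≤ L ^ k := fun k => one_le_pow₀ hL1
  have main : ‖∑ n ∈ Ioc X X', ((ArithmeticFunction.vonMangoldt n : ℝ) : ℂ) * EE s d H c n‖ ≤
      (20 * C₃ + 9 * C₂) * (T * L ^ 6) * Q := by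
    obtain ⟨hU1, hU4, hU16⟩ := sqrt_sqrt_facts X hX
    set U := Nat.sqrt (Nat.sqrt X) with hU
    have hUX : U ≤ X := le_trans (Nat.le_self_pow (by norm_num) U) hU4
    have hU3 : U ^ 3 ≤ X := le_trans (Nat.pow_le_pow_right hU1 (by norm_num)) hU4
    have hUr : (U : ℝ) ≤ (X : ℝ) ^ (1 / 4 : ℝ) := by
      have h1 : ((U : ℝ) ^ (4 : ℕ)) ≤ X := by exact_mod_cast hU4
      calc (U : ℝ) = ((U : ℝ) ^ (4 : ℕ)) ^ (1 / 4 : ℝ) := by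
            rw [← Real.rpow_natCast, ← Real.rpow_mul (Nat.cast_nonneg _)]
            norm_num
        _ ≤ _ := Real.rpow_le_rpow (by positivity) h1 (by norm_num)
    have hV := hVAU (EE s d H c) X X' U hX hXX' hX' hU1 hU3
      (fun m => C₂ * (1 + Real.log X) * (2 * (H * √(H : ℝ)) * (X : ℝ) ^ (1 / 4 : ℝ) +
        √(H : ℝ) * (X : ℝ) ^ (7 / 8 : ℝ) * (1 / m))) T
      (C₃ * (1 + Real.log X) ^ 2 * Q)
      (by positivity) (fun m => by positivity) hT1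
      (by
        intro m hm1 hm2
        have h1 := hD m hm1
        have h2 : (m : ℝ) ≤ 2 * X := by
          have : m ≤ 2 * X := le_trans hm2 hX'
          exact_mod_cast this
        calc (m.divisors.card : ℝ) ≤ C₁ * (m : ℝ) ^ (ε / 2) := h1
          _ ≤ C₁ * (2 * (X : ℝ)) ^ (ε / 2) := by
              gcongr
          _ ≤ T := by
              rw [hTd]
              gcongr
              linarith)
      (by
        intro m hm b hb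
        rw [Finset.mem_Icc] at hm
        exact typeI_EE hC₂ hT X X' H m b c hX hX' hH hHX4 hm.1
          (le_trans (Nat.pow_le_pow_left hm.2 4) hU4) hb hc)
      (by
        intro a b ha hb M L' hM hL' hUM hUL hML
        rw [hQ]
        exact hB X X' U H M L' c a b hH hHX hX hXX' hX' hU16 hM hL' hUM hUL hML hc ha hb)
    refine hV.trans ?_
    have hsumY : ∑ m ∈ Icc 1 U, C₂ * (1 + Real.log X) * (2 * (H * √(H : ℝ)) * (X : ℝ) ^ (1 / 4 : ℝ) +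
        √(H : ℝ) * (X : ℝ) ^ (7 / 8 : ℝ) * (1 / m)) ≤ 3 * C₂ * L ^ 2 * Q := by
      have hexp : ∑ m ∈ Icc 1 U, C₂ * (1 + Real.log X) * (2 * (H * √(H : ℝ)) * (X : ℝ) ^ (1 / 4 : ℝ) +
          √(H : ℝ) * (X : ℝ) ^ (7 / 8 : ℝ) * (1 / m)) =
          C₂ * (1 + Real.log X) * ((U : ℝ) * (2 * (H * √(H : ℝ)) * (X : ℝ) ^ (1 / 4 : ℝ)) +
            √(H : ℝ) * (X : ℝ) ^ (7 / 8 : ℝ) * ∑ m ∈ Icc 1 U, (1 : ℝ) / m) := by
        rw [← Finset.mul_sum, Finset.sum_add_distrib, Finset.sum_const, Nat.card_Icc,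
          nsmul_eq_mul, ← Finset.mul_sum]
        simp
      rw [hexp]
      have h1 := sum_inv_le U X hU1 hUX
      rw [← hL] at h1
      have h3 : (U : ℝ) * (2 * (H * √(H : ℝ)) * (X : ℝ) ^ (1 / 4 : ℝ)) ≤ 2 * Q := by
        calc (U : ℝ) * (2 * (H * √(H : ℝ)) * (X : ℝ) ^ (1 / 4 : ℝ))
            ≤ (X : ℝ) ^ (1 / 4 : ℝ) * (2 * (H * (X : ℝ) ^ (1 / 4 : ℝ)) * (X : ℝ) ^ (1 / 4 : ℝ)) := by gcongr
          _ = 2 * (H * ((X : ℝ) ^ (1 / 4 : ℝ) * (X : ℝ) ^ (1 / 4 : ℝ) * (X : ℝ) ^ (1 / 4 : ℝ))) := by ring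
          _ = 2 * (H * (X : ℝ) ^ (3 / 4 : ℝ)) := by
              rw [← Real.rpow_add hX0, ← Real.rpow_add hX0]
              norm_num
          _ ≤ 2 * Q := by
              rw [hQ]
              have : 0 ≤ √(H : ℝ) * (X : ℝ) ^ (7 / 8 : ℝ) := by positivity
              linarith
      have h4 : √(H : ℝ) * (X : ℝ) ^ (7 / 8 : ℝ) * ∑ m ∈ Icc 1 U, (1 : ℝ) / m ≤ Q * L := by
        have h5 : √(H : ℝ) * (X : ℝ) ^ (7 / 8 : ℝ) ≤ Q := by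
          rw [hQ]
          have : 0 ≤ H * (X : ℝ) ^ (3 / 4 : ℝ) := by positivity
          linarith
        have h6 : 0 ≤ ∑ m ∈ Icc 1 U, (1 : ℝ) / m := Finset.sum_nonneg (fun _ _ => by positivity)
        exact mul_le_mul h5 h1 h6 hQ0
      have h7 : Q ≤ Q * L := by nlinarith
      calc C₂ * (1 + Real.log X) * ((U : ℝ) * (2 * (H * √(H : ℝ)) * (X : ℝ) ^ (1 / 4 : ℝ)) +
            √(H : ℝ) * (X : ℝ) ^ (7 / 8 : ℝ) * ∑ m ∈ Icc 1 U, (1 : ℝ) / m)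
          ≤ C₂ * L * (2 * (Q * L) + Q * L) := by
            have : 1 + Real.log X ≤ L := by rw [hL]; linarith
            have h8 : (U : ℝ) * (2 * (H * √(H : ℝ)) * (X : ℝ) ^ (1 / 4 : ℝ)) ≤ 2 * (Q * L) := by linarith
            gcongr
        _ = 3 * C₂ * L ^ 2 * Q := by ring
    have hlogL : 1 + Real.log X ≤ L := by rw [hL]; linarith
    calc 20 * (1 + Real.log (4 * X)) ^ 4 * T * (C₃ * (1 + Real.log X) ^ 2 * Q) +
          3 * (1 + Real.log (4 * X)) * ∑ m ∈ Icc 1 U, C₂ * (1 + Real.log X) *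
            (2 * (H * √(H : ℝ)) * (X : ℝ) ^ (1 / 4 : ℝ) + √(H : ℝ) * (X : ℝ) ^ (7 / 8 : ℝ) * (1 / m))
        ≤ 20 * L ^ 4 * T * (C₃ * L ^ 2 * Q) + 3 * L * (3 * C₂ * L ^ 2 * Q) := by
          rw [← hL]
          gcongr
      _ = 20 * C₃ * (T * L ^ 6) * Q + 9 * C₂ * (L ^ 3) * Q := by ring
      _ ≤ 20 * C₃ * (T * L ^ 6) * Q + 9 * C₂ * (T * L ^ 6) * Q := by
          have h7 : L ^ 3 ≤ T * L ^ 6 := by
            calc L ^ 3 ≤ L ^ 6 := pow_le_pow_right₀ hL1 (by norm_num)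
              _ = 1 * L ^ 6 := (one_mul _).symm
              _ ≤ T * L ^ 6 := by gcongr
          gcongr
      _ = (20 * C₃ + 9 * C₂) * (T * L ^ 6) * Q := by ring
  have habs := log_absorb6 ε C₁ hε hC₁ X hX
  rw [← hTd, ← hL] at habs
  rw [← hQ]
  calc ‖∑ n ∈ Ioc X X', ((ArithmeticFunction.vonMangoldt n : ℝ) : ℂ) * EE s d H c n‖
      ≤ (20 * C₃ + 9 * C₂) * (T * L ^ 6) * Q := main
    _ ≤ (20 * C₃ + 9 * C₂) * ((C₁ + 1) * (1 + 12 / ε) ^ 6 * (4 : ℝ) ^ ε * (X : ℝ) ^ ε) * Q := by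
        gcongr
    _ = (20 * C₃ + 9 * C₂) * ((C₁ + 1) * (1 + 12 / ε) ^ 6 * (4 : ℝ) ^ ε) * (X : ℝ) ^ ε * Q := by
        ring

end Run7.h994.BPD
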