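import Mathlib
import Pool.Agent.Run7.h994.BPD.ES
import Pool.Agent.Run7.h994.BP.Tri

/-!
Project BPD, piece TRI (helper994): sums of the triangle function over primes, phases `s v^(1/d)`.
-/

set_option autoImplicit false

namespace Run7.h994.BPD

open Finset Filter Topology
open Pool.Agent.H469R2.NK (e)
open Pool.Agent.N792 (tri triC)
open Run7.h462.BPD
open Run7.h994.BP (sum_range_two_pow W_le log_two_le)

/-- the exponential sum over the prime powers -/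
noncomputable def Zs (s : ℝ) (d : ℕ) (X X' : ℕ) (h : ℕ) : ℂ :=
  ∑ n ∈ Ioc X X', ((ArithmeticFunction.vonMangoldt n : ℝ) : ℂ) * e (s * h * (n : ℝ) ^ (1 / (d : ℝ)))

lemma block_sum {s : ℝ} {d : ℕ} {κ C : ℝ} (hES : ∀ (X X' H : ℕ) (c : ℕ → ℂ), 1 ≤ H → 4 * H ^ 2 ≤ X → X ≤ X' →
    X' ≤ 2 * X → (∀ h, ‖c h‖ ≤ 1) →
    ‖∑ n ∈ Ioc X X', ((ArithmeticFunction.vonMangoldt n : ℝ) : ℂ) * EE s d H c n‖ ≤
      C * (X : ℝ) ^ κ * (H * (X : ℝ) ^ (3 / 4 : ℝ) + √(H : ℝ) * (X : ℝ) ^ (7 / 8 : ℝ)))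
    (X X' H : ℕ) (hH : 1 ≤ H) (hHX : 4 * H ^ 2 ≤ X) (hXX' : X ≤ X') (hX' : X' ≤ 2 * X) :
    ∑ h ∈ Ico H (2 * H), ‖Zs s d X X' h‖ ≤
      C * (X : ℝ) ^ κ * (H * (X : ℝ) ^ (3 / 4 : ℝ) + √(H : ℝ) * (X : ℝ) ^ (7 / 8 : ℝ)) := by
  set c : ℕ → ℂ := fun h => (starRingEnd ℂ) (Zs s d X X' h) / (‖Zs s d X X' h‖ : ℂ) with hc
  have hc1 : ∀ h, ‖c h‖ ≤ 1 := by
    intro h
    rw [hc]
    simp only [norm_div, RCLike.norm_conj, Complex.norm_real, norm_norm]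
    exact div_self_le_one _
  have hcZ : ∀ h, c h * Zs s d X X' h = (‖Zs s d X X' h‖ : ℂ) := by
    intro h
    rw [hc]
    simp only
    by_cases h0 : Zs s d X X' h = 0
    · simp [h0]
    · have h1 : (‖Zs s d X X' h‖ : ℂ) ≠ 0 := by
        simpa using h0
      have h2 : (starRingEnd ℂ) (Zs s d X X' h) * Zs s d X X' h = (‖Zs s d X X' h‖ : ℂ) ^ 2 := by
        rw [mul_comm, Complex.mul_conj, Complex.normSq_eq_norm_sq]
        push_cast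
        rfl
      rw [div_mul_eq_mul_div, h2, pow_two]
      field_simp
  have h1 := hES X X' H c hH hHX hXX' hX' hc1
  have h2 : ∑ n ∈ Ioc X X', ((ArithmeticFunction.vonMangoldt n : ℝ) : ℂ) * EE s d H c n =
      ((∑ h ∈ Ico H (2 * H), ‖Zs s d X X' h‖ : ℝ) : ℂ) := by
    push_cast
    calc ∑ n ∈ Ioc X X', ((ArithmeticFunction.vonMangoldt n : ℝ) : ℂ) * EE s d H c n
        = ∑ n ∈ Ioc X X', ∑ h ∈ Ico H (2 * H),
            ((ArithmeticFunction.vonMangoldt n : ℝ) : ℂ) * (c h * e (s * h * (n : ℝ) ^ (1 / (d : ℝ)))) := by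
          apply Finset.sum_congr rfl
          intro n _
          unfold EE
          rw [Finset.mul_sum]
      _ = ∑ h ∈ Ico H (2 * H), ∑ n ∈ Ioc X X',
            ((ArithmeticFunction.vonMangoldt n : ℝ) : ℂ) * (c h * e (s * h * (n : ℝ) ^ (1 / (d : ℝ)))) :=
          Finset.sum_comm
      _ = ∑ h ∈ Ico H (2 * H), (‖Zs s d X X' h‖ : ℂ) := by
          apply Finset.sum_congr rfl
          intro h _
          rw [← hcZ h]
          unfold Zs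
          rw [Finset.mul_sum]
          apply Finset.sum_congr rfl
          intro n _
          ring
  rw [h2, Complex.norm_real, Real.norm_of_nonneg (Finset.sum_nonneg (fun _ _ => norm_nonneg _))] at h1
  exact h1

lemma cos_sum_le (s : ℝ) (d : ℕ) (X X' n : ℕ) (t : ℝ) :
    |∑ v ∈ Ioc X X', ArithmeticFunction.vonMangoldt v *
      Real.cos (2 * Real.pi * n * (s * (v : ℝ) ^ (1 / (d : ℝ)) + t))| ≤ ‖Zs s d X X' n‖ := by
  have h1 : ∑ v ∈ Ioc X X', ArithmeticFunction.vonMangoldt v *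
      Real.cos (2 * Real.pi * n * (s * (v : ℝ) ^ (1 / (d : ℝ)) + t)) = (e (n * t) * Zs s d X X' n).re := by
    unfold Zs
    rw [Finset.mul_sum, Complex.re_sum]
    apply Finset.sum_congr rfl
    intro v _
    have h2 : e (n * t) * (((ArithmeticFunction.vonMangoldt v : ℝ) : ℂ) * e (s * n * (v : ℝ) ^ (1 / (d : ℝ)))) =
        ((ArithmeticFunction.vonMangoldt v : ℝ) : ℂ) * e (n * t + s * n * (v : ℝ) ^ (1 / (d : ℝ))) := by
      rw [Pool.Agent.H469R2.NK.e_add]; ring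
    rw [h2, Complex.re_ofReal_mul]
    congr 1
    unfold Pool.Agent.H469R2.NK.e
    rw [Complex.exp_ofReal_mul_I_re]
    congr 1
    ring
  rw [h1]
  calc |(e (n * t) * Zs s d X X' n).re| ≤ ‖e (n * t) * Zs s d X X' n‖ := Complex.abs_re_le_norm _
    _ = ‖Zs s d X X' n‖ := by rw [norm_mul, Pool.Agent.H469R2.NK.norm_e, one_mul]

/-- the bound for one block -/
lemma block_bound {s : ℝ} {d : ℕ} {ε C : ℝ} (hε : 0 < ε) (hC1 : 1 ≤ C)
    (hES : ∀ (X X' H : ℕ) (c : ℕ → ℂ), 1 ≤ H → 4 * H ^ 2 ≤ X → X ≤ X' →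
    X' ≤ 2 * X → (∀ h, ‖c h‖ ≤ 1) →
    ‖∑ n ∈ Ioc X X', ((ArithmeticFunction.vonMangoldt n : ℝ) : ℂ) * EE s d H c n‖ ≤
      C * (X : ℝ) ^ (ε / 8) * (H * (X : ℝ) ^ (3 / 4 : ℝ) + √(H : ℝ) * (X : ℝ) ^ (7 / 8 : ℝ)))
    (X X' H : ℕ) (hH : 1 ≤ H) (hHX : 4 * H ^ 2 ≤ X) (hXX' : X ≤ X') (hX' : X' ≤ 2 * X)
    (δ t : ℝ) (hδ : (X : ℝ) ^ (-1 / 4 + ε) ≤ δ) :
    ∑ n ∈ Ico H (2 * H), |triC δ n * ∑ v ∈ Ioc X X', ArithmeticFunction.vonMangoldt v *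
      Real.cos (2 * Real.pi * n * (s * (v : ℝ) ^ (1 / (d : ℝ)) + t))| ≤
      4 * C * (X : ℝ) ^ (ε / 8) * (δ * X * (X : ℝ) ^ (-ε / 2)) := by
  have hX : 1 ≤ X := by
    have := Nat.one_le_pow 2 H hH
    omega
  have hXr : (1 : ℝ) ≤ X := by exact_mod_cast hX
  have hX0 : (0 : ℝ) < X := by linarith
  have hδ0 : 0 < δ := lt_of_lt_of_le (Real.rpow_pos_of_pos hX0 _) hδ
  have hHr : (1 : ℝ) ≤ H := by exact_mod_cast hH
  have hH0 : (0 : ℝ) < H := by linarith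
  set w : ℝ := min (2 * δ) (2 / (9 * (H : ℝ) ^ 2 * δ)) with hw
  have hw0 : 0 ≤ w := le_min (by positivity) (by positivity)
  have hw1 : w ≤ 2 * δ := min_le_left _ _
  have hw2 : w ≤ 2 / (9 * (H : ℝ) ^ 2 * δ) := min_le_right _ _
  have hterm : ∀ n ∈ Ico H (2 * H), |triC δ n * ∑ v ∈ Ioc X X', ArithmeticFunction.vonMangoldt v *
      Real.cos (2 * Real.pi * n * (s * (v : ℝ) ^ (1 / (d : ℝ)) + t))| ≤ w * ‖Zs s d X X' n‖ := by
    intro n hn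
    rw [Finset.mem_Ico] at hn
    have hn0 : n ≠ 0 := by omega
    rw [abs_mul, abs_of_nonneg (Pool.Agent.N792.triC_nonneg hδ0 n)]
    apply mul_le_mul _ (cos_sum_le s d X X' n t) (abs_nonneg _) hw0
    apply le_min (Pool.Agent.N792.triC_le_one hδ0 n)
    refine (Pool.Agent.N792.triC_le_two hδ0 n hn0).trans ?_
    have : (H : ℝ) ≤ n := by exact_mod_cast hn.1
    gcongr
  have hsqδ0 : 0 < √δ := Real.sqrt_pos.mpr hδ0
  have hsqδ : √δ * √δ = δ := Real.mul_self_sqrt hδ0.le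
  have hsqH : √(H : ℝ) * √(H : ℝ) = H := Real.mul_self_sqrt hH0.le
  have hsqH0 : 0 < √(H : ℝ) := Real.sqrt_pos.mpr hH0
  have hA : w * √(H : ℝ) ≤ 2 * √δ := by
    -- let u = √H, d = √δ
    set u := √(H : ℝ) with hu
    set q := √δ with hd
    rcases le_total (u * q) 1 with h | h
    · calc w * u ≤ 2 * δ * u := by gcongr
        _ = 2 * q * (u * q) := by rw [← hsqδ]; ring
        _ ≤ 2 * q * 1 := by gcongr
        _ = 2 * q := by ring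
    · calc w * u ≤ 2 / (9 * (H : ℝ) ^ 2 * δ) * u := by gcongr
        _ ≤ 2 * q := by
          rw [div_mul_eq_mul_div, div_le_iff₀ (by positivity)]
          have h2 : (H : ℝ) ^ 2 * δ = u * (u * q) * (u * q) * u / 1 * 1 := by
            rw [← hsqH, ← hsqδ]; ring
          have h3 : 2 * q * (9 * (H : ℝ) ^ 2 * δ) = 18 * u * ((u * q) * (u * q) * (u * q)) := by
            have : 9 * (H : ℝ) ^ 2 * δ = 9 * ((H : ℝ) ^ 2 * δ) := by ring
            rw [this, h2]; ring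
          rw [h3]
          have h4 : 1 ≤ (u * q) * (u * q) * (u * q) := by
            have h5 : 1 ≤ (u * q) * (u * q) := by nlinarith
            nlinarith
          nlinarith
  have hB : w * (H : ℝ) ≤ 2 := by
    rcases le_total ((H : ℝ) * δ) 1 with h | h
    · calc w * (H : ℝ) ≤ 2 * δ * H := by gcongr
        _ = 2 * (H * δ) := by ring
        _ ≤ 2 := by linarith
    · calc w * (H : ℝ) ≤ 2 / (9 * (H : ℝ) ^ 2 * δ) * H := by gcongr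
        _ = 2 / (9 * (H * δ)) := by field_simp
        _ ≤ 2 := by
          rw [div_le_iff₀ (by positivity)]
          linarith
  have hS := block_sum hES X X' H hH hHX hXX' hX'
  have e1 : √δ * (X : ℝ) ^ (7 / 8 : ℝ) ≤ δ * X * (X : ℝ) ^ (-ε / 2) := by
    have h1 : (X : ℝ) ^ (-1 / 8 + ε / 2) ≤ √δ := by
      rw [Real.le_sqrt' (by positivity), ← Real.rpow_natCast, ← Real.rpow_mul hX0.le]
      calc (X : ℝ) ^ ((-1 / 8 + ε / 2) * ((2 : ℕ) : ℝ)) = (X : ℝ) ^ (-1 / 4 + ε) := by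
            congr 1; push_cast; ring
        _ ≤ δ := hδ
    have h2 : (X : ℝ) ^ (7 / 8 : ℝ) = (X : ℝ) ^ (-1 / 8 + ε / 2) * ((X : ℝ) * (X : ℝ) ^ (-ε / 2)) := by
      nth_rewrite 3 [← Real.rpow_one (X : ℝ)]
      rw [← Real.rpow_add hX0, ← Real.rpow_add hX0]
      congr 1; ring
    calc √δ * (X : ℝ) ^ (7 / 8 : ℝ) = √δ * ((X : ℝ) ^ (-1 / 8 + ε / 2) * ((X : ℝ) * (X : ℝ) ^ (-ε / 2))) := by
          rw [h2]
      _ ≤ √δ * (√δ * ((X : ℝ) * (X : ℝ) ^ (-ε / 2))) := by gcongr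
      _ = δ * X * (X : ℝ) ^ (-ε / 2) := by rw [← mul_assoc, hsqδ]; ring
  have e2 : (X : ℝ) ^ (3 / 4 : ℝ) ≤ δ * X * (X : ℝ) ^ (-ε / 2) := by
    have h2 : (X : ℝ) ^ (3 / 4 : ℝ) ≤ (X : ℝ) ^ (-1 / 4 + ε) * ((X : ℝ) * (X : ℝ) ^ (-ε / 2)) := by
      nth_rewrite 3 [← Real.rpow_one (X : ℝ)]
      rw [← Real.rpow_add hX0, ← Real.rpow_add hX0]
      apply Real.rpow_le_rpow_of_exponent_le hXr
      linarith
    calc (X : ℝ) ^ (3 / 4 : ℝ) ≤ (X : ℝ) ^ (-1 / 4 + ε) * ((X : ℝ) * (X : ℝ) ^ (-ε / 2)) := h2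
      _ ≤ δ * ((X : ℝ) * (X : ℝ) ^ (-ε / 2)) := by gcongr
      _ = δ * X * (X : ℝ) ^ (-ε / 2) := by ring
  calc ∑ n ∈ Ico H (2 * H), |triC δ n * ∑ v ∈ Ioc X X', ArithmeticFunction.vonMangoldt v *
      Real.cos (2 * Real.pi * n * (s * (v : ℝ) ^ (1 / (d : ℝ)) + t))|
      ≤ ∑ n ∈ Ico H (2 * H), w * ‖Zs s d X X' n‖ := Finset.sum_le_sum hterm
    _ = w * ∑ n ∈ Ico H (2 * H), ‖Zs s d X X' n‖ := by rw [Finset.mul_sum]
    _ ≤ w * (C * (X : ℝ) ^ (ε / 8) * (H * (X : ℝ) ^ (3 / 4 : ℝ) + √(H : ℝ) * (X : ℝ) ^ (7 / 8 : ℝ))) := by gcongr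
    _ = C * (X : ℝ) ^ (ε / 8) * ((w * H) * (X : ℝ) ^ (3 / 4 : ℝ) + (w * √(H : ℝ)) * (X : ℝ) ^ (7 / 8 : ℝ)) := by
        ring
    _ ≤ C * (X : ℝ) ^ (ε / 8) * (2 * (X : ℝ) ^ (3 / 4 : ℝ) + (2 * √δ) * (X : ℝ) ^ (7 / 8 : ℝ)) := by gcongr
    _ = C * (X : ℝ) ^ (ε / 8) * (2 * (X : ℝ) ^ (3 / 4 : ℝ) + 2 * (√δ * (X : ℝ) ^ (7 / 8 : ℝ))) := by ring
    _ ≤ C * (X : ℝ) ^ (ε / 8) * (2 * (δ * X * (X : ℝ) ^ (-ε / 2)) + 2 * (δ * X * (X : ℝ) ^ (-ε / 2))) := by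
        gcongr
    _ = 4 * C * (X : ℝ) ^ (ε / 8) * (δ * X * (X : ℝ) ^ (-ε / 2)) := by ring

theorem tri {s : ℝ} {d : ℕ} (hES : S_ES4 s d) : S_TRI s d := by
  intro ε η hε hη
  obtain ⟨C, hC1, hC⟩ := hES (ε / 8) (by positivity)
  obtain ⟨K₁, hK₁⟩ : ∃ K, K = 12 / η := ⟨_, rfl⟩
  have hK₁0 : 0 < K₁ := by rw [hK₁]; positivity
  have tend : ∀ a : ℝ, 0 < a → Tendsto (fun X : ℕ => (X : ℝ) ^ a) atTop atTop := fun a ha =>
    (tendsto_rpow_atTop ha).comp tendsto_natCast_atTop_atTop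
  have ev1 : ∀ᶠ X : ℕ in atTop, 4 * K₁ ^ 2 ≤ (X : ℝ) ^ (4 * ε) :=
    (tend _ (by positivity)).eventually_ge_atTop _
  have ev2 : ∀ᶠ X : ℕ in atTop, (1 + 16 / ε) * (4 * C) * 2 / η ≤ (X : ℝ) ^ (ε / 4) :=
    (tend _ (by positivity)).eventually_ge_atTop _
  obtain ⟨X₀, hX₀⟩ := eventually_atTop.mp (ev1.and (ev2.and (eventually_ge_atTop 1)))
  refine ⟨X₀, fun X X' hX hXX' hX' δ t hδ1 hδ2 => ?_⟩
  obtain ⟨h1, h2, hX1⟩ := hX₀ X hX
  have hXr : (1 : ℝ) ≤ X := by exact_mod_cast hX1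
  have hX0 : (0 : ℝ) < X := by linarith
  have hδ0 : 0 < δ := lt_of_lt_of_le (Real.rpow_pos_of_pos hX0 _) hδ1
  -- the number of blocks
  obtain ⟨m, hm⟩ : ∃ m : ℕ, m = ⌈K₁ / δ ^ 2⌉₊ := ⟨_, rfl⟩
  obtain ⟨I, hI⟩ : ∃ I : ℕ, I = Nat.clog 2 m := ⟨_, rfl⟩
  have hm2 : m ≤ 2 ^ I := by rw [hI]; exact (Nat.clog_le_iff_le_pow (by norm_num)).mp le_rfl
  have hM : K₁ / δ ^ 2 ≤ ((2 ^ I : ℕ) : ℝ) := by
    calc K₁ / δ ^ 2 ≤ (m : ℝ) := by rw [hm]; exact Nat.le_ceil _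
      _ ≤ ((2 ^ I : ℕ) : ℝ) := by exact_mod_cast hm2
  have hδi : 1 / δ ^ 2 ≤ (X : ℝ) ^ (1 / 2 - 2 * ε) := by
    rw [div_le_iff₀ (by positivity)]
    calc (1 : ℝ) = (X : ℝ) ^ (1 / 2 - 2 * ε) * ((X : ℝ) ^ (-1 / 4 + ε)) ^ 2 := by
          rw [← Real.rpow_natCast ((X : ℝ) ^ (-1 / 4 + ε)) 2, ← Real.rpow_mul hX0.le, ← Real.rpow_add hX0]
          have : (1 / 2 - 2 * ε + (-1 / 4 + ε) * ((2 : ℕ) : ℝ) : ℝ) = 0 := by push_cast; ring
          rw [this, Real.rpow_zero]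
      _ ≤ (X : ℝ) ^ (1 / 2 - 2 * ε) * δ ^ 2 := by gcongr
  have hblock : ∀ i < I, 4 * (2 ^ i) ^ 2 ≤ X := by
    intro i hi
    have h3 : 2 ^ i < m := by
      rw [hI] at hi
      exact (Nat.lt_clog_iff_pow_lt (by norm_num)).mp hi
    have h4 : ((2 ^ i : ℕ) : ℝ) < K₁ / δ ^ 2 := by
      rw [hm] at h3
      exact Nat.lt_ceil.mp h3
    have h5 : ((2 ^ i : ℕ) : ℝ) ≤ K₁ * (X : ℝ) ^ (1 / 2 - 2 * ε) := by
      calc ((2 ^ i : ℕ) : ℝ) ≤ K₁ / δ ^ 2 := h4.le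
        _ = K₁ * (1 / δ ^ 2) := by ring
        _ ≤ K₁ * (X : ℝ) ^ (1 / 2 - 2 * ε) := by gcongr
    have h6 : ((4 * (2 ^ i) ^ 2 : ℕ) : ℝ) ≤ X := by
      calc ((4 * (2 ^ i) ^ 2 : ℕ) : ℝ) = 4 * ((2 ^ i : ℕ) : ℝ) ^ 2 := by push_cast; ring
        _ ≤ 4 * (K₁ * (X : ℝ) ^ (1 / 2 - 2 * ε)) ^ 2 := by gcongr
        _ = (4 * K₁ ^ 2) * (X : ℝ) ^ (1 - 4 * ε) := by
            rw [mul_pow, ← Real.rpow_natCast ((X : ℝ) ^ (1 / 2 - 2 * ε)) 2, ← Real.rpow_mul hX0.le, ← mul_assoc]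
            congr 2
            push_cast; ring
        _ ≤ (X : ℝ) ^ (4 * ε) * (X : ℝ) ^ (1 - 4 * ε) := by gcongr
        _ = X := by
            rw [← Real.rpow_add hX0]
            have : 4 * ε + (1 - 4 * ε) = 1 := by ring
            rw [this, Real.rpow_one]
    exact_mod_cast h6
  have hIle : (I : ℝ) ≤ (1 + 16 / ε) * (X : ℝ) ^ (ε / 8) := by
    refine le_trans ?_ (log_two_le X hX1 ε hε)
    have : I ≤ Nat.log 2 X + 1 := by
      by_contra hcon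
      push Not at hcon
      have h3 := hblock (I - 1) (by omega)
      have h4 : 2 ^ (I - 1) ≤ X := by
        calc 2 ^ (I - 1) ≤ (2 ^ (I - 1)) ^ 2 := Nat.le_self_pow (by norm_num) _
          _ ≤ X := by omega
      have h5 : I - 1 ≤ Nat.log 2 X := (Nat.le_log_iff_pow_le (by norm_num) (by omega)).mpr h4
      omega
    exact_mod_cast this
  -- the series
  set F : ℕ → ℝ := fun n => triC δ n * ∑ v ∈ Ioc X X', ArithmeticFunction.vonMangoldt v *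
      Real.cos (2 * Real.pi * n * (s * (v : ℝ) ^ (1 / (d : ℝ)) + t)) with hF
  have hsum : HasSum F (∑ v ∈ Ioc X X', ArithmeticFunction.vonMangoldt v *
      (Pool.Agent.N792.tri δ (s * (v : ℝ) ^ (1 / (d : ℝ)) + t) - δ)) := by
    have h3 : HasSum (fun n : ℕ => ∑ v ∈ Ioc X X', ArithmeticFunction.vonMangoldt v *
        (triC δ n * Real.cos (2 * Real.pi * n * (s * (v : ℝ) ^ (1 / (d : ℝ)) + t))))
        (∑ v ∈ Ioc X X', ArithmeticFunction.vonMangoldt v *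
          (Pool.Agent.N792.tri δ (s * (v : ℝ) ^ (1 / (d : ℝ)) + t) - δ)) := by
      apply hasSum_sum
      intro v _
      exact (Pool.Agent.N792.tri_hasSum hδ0 hδ2 (s * (v : ℝ) ^ (1 / (d : ℝ)) + t)).mul_left _
    convert h3 using 2 with n
    rw [hF]
    simp only
    rw [Finset.mul_sum]
    apply Finset.sum_congr rfl
    intro v _
    ring
  have hgoal : ∑ v ∈ Ioc X X', ArithmeticFunction.vonMangoldt v *
      (Pool.Agent.N792.tri δ (s * (v : ℝ) ^ (1 / (d : ℝ)) + t) - δ) =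
      ∑ v ∈ Ioc X X', ArithmeticFunction.vonMangoldt v *
        Pool.Agent.N792.tri δ (s * (v : ℝ) ^ (1 / (d : ℝ)) + t) -
        δ * ∑ v ∈ Ioc X X', ArithmeticFunction.vonMangoldt v := by
    rw [Finset.mul_sum, ← Finset.sum_sub_distrib]
    apply Finset.sum_congr rfl
    intro v _
    ring
  rw [← hgoal]
  set W := ∑ v ∈ Ioc X X', ArithmeticFunction.vonMangoldt v with hW
  have hWle : W ≤ 12 * X := W_le X X' hX'
  have hW0 : 0 ≤ W := Finset.sum_nonneg (fun _ _ => ArithmeticFunction.vonMangoldt_nonneg)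
  have hFle : ∀ n, n ≠ 0 → |F n| ≤ 2 * W / (9 * δ) * ((n : ℝ) ^ 2)⁻¹ := by
    intro n hn
    rw [hF]
    simp only
    rw [abs_mul, abs_of_nonneg (Pool.Agent.N792.triC_nonneg hδ0 n)]
    have h3 : |∑ v ∈ Ioc X X', ArithmeticFunction.vonMangoldt v *
      Real.cos (2 * Real.pi * n * (s * (v : ℝ) ^ (1 / (d : ℝ)) + t))| ≤ W := by
      refine (Finset.abs_sum_le_sum_abs _ _).trans (Finset.sum_le_sum ?_)
      intro v _
      rw [abs_mul, abs_of_nonneg ArithmeticFunction.vonMangoldt_nonneg]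
      calc ArithmeticFunction.vonMangoldt v *
            |Real.cos (2 * Real.pi * n * (s * (v : ℝ) ^ (1 / (d : ℝ)) + t))|
          ≤ ArithmeticFunction.vonMangoldt v * 1 := by
            apply mul_le_mul_of_nonneg_left (Real.abs_cos_le_one _) ArithmeticFunction.vonMangoldt_nonneg
        _ = _ := mul_one _
    have hn' : (0 : ℝ) < n := by positivity
    calc triC δ n * _ ≤ (2 / (9 * (n : ℝ) ^ 2 * δ)) * W :=
          mul_le_mul (Pool.Agent.N792.triC_le_two hδ0 n hn) h3 (abs_nonneg _) (by positivity)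
      _ = 2 * W / (9 * δ) * ((n : ℝ) ^ 2)⁻¹ := by field_simp
  have hF0 : F 0 = 0 := by
    rw [hF]
    simp [triC]
  obtain ⟨Bk, hBk⟩ : ∃ B, B = 4 * C * (X : ℝ) ^ (ε / 8) * (δ * X * (X : ℝ) ^ (-ε / 2)) := ⟨_, rfl⟩
  have hBk0 : 0 ≤ Bk := by rw [hBk]; positivity
  have hlow : ∑ n ∈ range (2 ^ I), |F n| ≤ I * Bk := by
    rw [sum_range_two_pow (fun n => |F n|) I]
    simp only [hF0, abs_zero, zero_add]
    calc ∑ i ∈ range I, ∑ n ∈ Ico (2 ^ i) (2 * 2 ^ i), |F n| ≤ ∑ i ∈ range I, Bk := by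
          apply Finset.sum_le_sum
          intro i hi
          rw [Finset.mem_range] at hi
          rw [hBk]
          exact block_bound hε hC1 hC X X' (2 ^ i) (Nat.one_le_two_pow) (hblock i hi) hXX' hX' δ t hδ1
      _ = I * Bk := by rw [Finset.sum_const, Finset.card_range, nsmul_eq_mul]
  have htot : ∀ N : ℕ, |∑ n ∈ range N, F n| ≤ I * Bk + 2 * W / (9 * δ) * (2 / ((2 ^ I : ℕ) : ℝ)) := by
    intro N
    have h2I : 1 ≤ 2 ^ I := Nat.one_le_two_pow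
    rcases le_total N (2 ^ I) with hN | hN
    · calc |∑ n ∈ range N, F n| ≤ ∑ n ∈ range N, |F n| := Finset.abs_sum_le_sum_abs _ _
        _ ≤ ∑ n ∈ range (2 ^ I), |F n| := by
            apply Finset.sum_le_sum_of_subset_of_nonneg (Finset.range_subset_range.mpr hN)
            intro _ _ _; exact abs_nonneg _
        _ ≤ I * Bk := hlow
        _ ≤ _ := by
            have : 0 ≤ 2 * W / (9 * δ) * (2 / ((2 ^ I : ℕ) : ℝ)) := by positivity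
            linarith
    · calc |∑ n ∈ range N, F n| ≤ ∑ n ∈ range N, |F n| := Finset.abs_sum_le_sum_abs _ _
        _ = ∑ n ∈ range (2 ^ I), |F n| + ∑ n ∈ Ico (2 ^ I) N, |F n| :=
            (Finset.sum_range_add_sum_Ico _ hN).symm
        _ ≤ I * Bk + ∑ n ∈ Ico (2 ^ I) N, 2 * W / (9 * δ) * ((n : ℝ) ^ 2)⁻¹ := by
            apply add_le_add hlow
            apply Finset.sum_le_sum
            intro n hn
            rw [Finset.mem_Ico] at hn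
            exact hFle n (by omega)
        _ = I * Bk + 2 * W / (9 * δ) * ∑ n ∈ Ico (2 ^ I) N, ((n : ℝ) ^ 2)⁻¹ := by rw [← Finset.mul_sum]
        _ ≤ I * Bk + 2 * W / (9 * δ) * (2 / ((2 ^ I : ℕ) : ℝ)) := by
            have h3 : Ico (2 ^ I) N = Ioo (2 ^ I - 1) N := by
              ext x
              rw [Finset.mem_Ico, Finset.mem_Ioo]
              omega
            have h4 := sum_Ioo_inv_sq_le (α := ℝ) (2 ^ I - 1) N
            rw [← h3] at h4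
            have h5 : (((2 ^ I - 1 : ℕ) : ℝ) + 1) = ((2 ^ I : ℕ) : ℝ) := by
              rw [Nat.cast_sub h2I]; push_cast; ring
            rw [h5] at h4
            have : 0 ≤ 2 * W / (9 * δ) := by positivity
            gcongr
  have hlim : |∑ v ∈ Ioc X X', ArithmeticFunction.vonMangoldt v *
      (Pool.Agent.N792.tri δ (s * (v : ℝ) ^ (1 / (d : ℝ)) + t) - δ)| ≤
      I * Bk + 2 * W / (9 * δ) * (2 / ((2 ^ I : ℕ) : ℝ)) := by
    have h3 := hsum.tendsto_sum_nat.abs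
    exact le_of_tendsto' h3 htot
  refine hlim.trans ?_
  -- first part
  have p1 : (I : ℝ) * Bk ≤ η / 2 * (δ * X) := by
    have hX8 : (X : ℝ) ^ (ε / 8) * ((X : ℝ) ^ (ε / 8) * (X : ℝ) ^ (-ε / 2)) = ((X : ℝ) ^ (ε / 4))⁻¹ := by
      rw [← Real.rpow_add hX0, ← Real.rpow_add hX0, ← Real.rpow_neg hX0.le]
      congr 1; ring
    have hp : 0 < (X : ℝ) ^ (ε / 4) := Real.rpow_pos_of_pos hX0 _
    calc (I : ℝ) * Bk ≤ ((1 + 16 / ε) * (X : ℝ) ^ (ε / 8)) *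
          (4 * C * (X : ℝ) ^ (ε / 8) * (δ * X * (X : ℝ) ^ (-ε / 2))) := by
          rw [← hBk]; gcongr
      _ = (1 + 16 / ε) * (4 * C) * (δ * X) * ((X : ℝ) ^ (ε / 8) * ((X : ℝ) ^ (ε / 8) * (X : ℝ) ^ (-ε / 2))) := by
          ring
      _ = (1 + 16 / ε) * (4 * C) * (δ * X) * ((X : ℝ) ^ (ε / 4))⁻¹ := by rw [hX8]
      _ = ((1 + 16 / ε) * (4 * C) * 2 / η) * ((X : ℝ) ^ (ε / 4))⁻¹ * (η / 2 * (δ * X)) := by
          field_simp
      _ ≤ (X : ℝ) ^ (ε / 4) * ((X : ℝ) ^ (ε / 4))⁻¹ * (η / 2 * (δ * X)) := by gcongr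
      _ = η / 2 * (δ * X) := by rw [mul_inv_cancel₀ hp.ne', one_mul]
  have p2 : 2 * W / (9 * δ) * (2 / ((2 ^ I : ℕ) : ℝ)) ≤ η / 2 * (δ * X) := by
    calc 2 * W / (9 * δ) * (2 / ((2 ^ I : ℕ) : ℝ)) ≤ 2 * (12 * X) / (9 * δ) * (2 / (K₁ / δ ^ 2)) := by
          gcongr
      _ = (48 / 9) * (δ * X) / K₁ := by field_simp; ring
      _ ≤ η / 2 * (δ * X) := by
          rw [hK₁, div_div_eq_mul_div, div_le_iff₀ (by norm_num)]
          have : 0 ≤ δ * X * η := by positivity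
          nlinarith
  calc (I : ℝ) * Bk + 2 * W / (9 * δ) * (2 / ((2 ^ I : ℕ) : ℝ)) ≤ η / 2 * (δ * X) + η / 2 * (δ * X) :=
        add_le_add p1 p2
    _ = η * (δ * X) := by ring

end Run7.h994.BPD
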