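import Mathlib
import Pool.Agent.Run7.h462.BPD.Stm
import Pool.Agent.Run7.h994.BP.FM

/-!
Project BPD, piece FM (helper994), part a: approximation of the polynomial by a power, the bound in one cell.
-/

set_option autoImplicit false

namespace Run7.h994.BPD

open Finset Filter Topology
open Pool.Agent.N792 (tri triC)
open Run7.h462.BPD
open Run7.h994.BP (sum_tri_le)
open scoped Polynomial

lemma pow_diff (d : ℕ) (y u : ℝ) (hu : 0 ≤ u) (huy : u ≤ y) :
    d * u ^ (d - 1) * (y - u) ≤ y ^ d - u ^ d ∧ y ^ d - u ^ d ≤ d * y ^ (d - 1) * (y - u) := by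
  have h := geom_sum₂_mul y u d
  rw [← h]
  have hy : 0 ≤ y := hu.trans huy
  constructor
  · apply mul_le_mul_of_nonneg_right _ (by linarith)
    calc (d : ℝ) * u ^ (d - 1) = ∑ i ∈ range d, u ^ (d - 1) := by simp
      _ ≤ _ := by
        apply Finset.sum_le_sum
        intro i hi
        rw [Finset.mem_range] at hi
        calc u ^ (d - 1) = u ^ i * u ^ (d - 1 - i) := by rw [← pow_add]; congr 1; omega
          _ ≤ y ^ i * u ^ (d - 1 - i) := by gcongr
  · apply mul_le_mul_of_nonneg_right _ (by linarith)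
    calc ∑ i ∈ range d, y ^ i * u ^ (d - 1 - i) ≤ ∑ i ∈ range d, y ^ (d - 1) := by
          apply Finset.sum_le_sum
          intro i hi
          rw [Finset.mem_range] at hi
          calc y ^ i * u ^ (d - 1 - i) ≤ y ^ i * y ^ (d - 1 - i) := by gcongr
            _ = y ^ (d - 1) := by rw [← pow_add]; congr 1; omega
      _ = _ := by simp

lemma approx (F : ℤ[X]) {e : ℕ} (he : F.natDegree = e + 2) {L : ℕ} (hL : (L : ℤ) = F.leadingCoeff)
    (hL1 : 1 ≤ L) {β : ℝ} (hβ : β = (F.coeff (e + 1) : ℝ) / ((e + 2) * L)) :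
    ∃ C : ℝ, 0 ≤ C ∧ ∀ n : ℕ, 1 ≤ n →
      |((F.eval (n : ℤ) : ℤ) : ℝ) - L * ((n : ℝ) + β) ^ (e + 2)| ≤ C * (n : ℝ) ^ e := by
  set G : ℝ[X] := F.map (Int.castRingHom ℝ) -
    Polynomial.C (L : ℝ) * (Polynomial.X + Polynomial.C β) ^ (e + 2) with hG
  have hL0 : (0 : ℝ) < L := by exact_mod_cast hL1
  have hcoeff : ∀ m, G.coeff m = (F.coeff m : ℝ) - L * (β ^ (e + 2 - m) * ((e + 2).choose m : ℝ)) := by
    intro m
    rw [hG, Polynomial.coeff_sub, Polynomial.coeff_map, Polynomial.coeff_C_mul,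
      Polynomial.coeff_X_add_C_pow]
    simp
  have hdeg : G.natDegree ≤ e := by
    rw [Polynomial.natDegree_le_iff_coeff_eq_zero]
    intro m hm
    rw [hcoeff]
    rcases Nat.lt_or_ge (e + 2) m with h | h
    · rw [Polynomial.coeff_eq_zero_of_natDegree_lt (by rw [he]; exact h), Nat.choose_eq_zero_of_lt h]
      simp
    · rcases Nat.lt_or_ge m (e + 2) with h' | h'
      · have hm1 : m = e + 1 := by omega
        subst hm1
        have h3 : (e + 2).choose (e + 1) = e + 2 := Nat.choose_succ_self_right (e + 1)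
        rw [h3]
        have h4 : e + 2 - (e + 1) = 1 := by omega
        rw [h4, pow_one, hβ]
        have h5 : ((e : ℝ) + 2) ≠ 0 := by positivity
        push_cast
        field_simp
        ring
      · have hm2 : m = e + 2 := by omega
        subst hm2
        have h3 : F.coeff (e + 2) = L := by
          rw [hL, Polynomial.leadingCoeff, he]
        rw [h3]
        simp
  refine ⟨∑ i ∈ range (e + 1), |G.coeff i|, Finset.sum_nonneg (fun _ _ => abs_nonneg _), ?_⟩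
  intro n hn
  have hn1 : (1 : ℝ) ≤ n := by exact_mod_cast hn
  have h1 : ((F.eval (n : ℤ) : ℤ) : ℝ) - L * ((n : ℝ) + β) ^ (e + 2) = G.eval (n : ℝ) := by
    rw [hG, Polynomial.eval_sub, Polynomial.eval_mul, Polynomial.eval_pow, Polynomial.eval_add,
      Polynomial.eval_X, Polynomial.eval_C, Polynomial.eval_C]
    congr 1
    have := Polynomial.eval_intCast_map (Int.castRingHom ℝ) F (n : ℤ)
    rw [Int.cast_natCast] at this
    rw [this]
    simp
  rw [h1, Polynomial.eval_eq_sum_range' (n := e + 1) (by omega), Finset.sum_mul]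
  refine (Finset.abs_sum_le_sum_abs _ _).trans (Finset.sum_le_sum ?_)
  intro i hi
  rw [Finset.mem_range] at hi
  rw [abs_mul, abs_pow, abs_of_nonneg (by linarith : (0 : ℝ) ≤ n)]
  apply mul_le_mul_of_nonneg_left _ (abs_nonneg _)
  exact pow_le_pow_right₀ hn1 (by omega)

lemma core {F : ℤ[X]} {e : ℕ} (he2 : e ≤ 2) {L : ℕ} {β C : ℝ} (hL1 : 1 ≤ L) (hC : 0 ≤ C)
    (happ : ∀ n : ℕ, 1 ≤ n → |((F.eval (n : ℤ) : ℤ) : ℝ) - L * ((n : ℝ) + β) ^ (e + 2)| ≤ C * (n : ℝ) ^ e)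
    (N A K v : ℕ) (R y φ δ : ℝ) (n : ℕ) (hK : 1 ≤ K) (hn1 : 1 ≤ n) (hnN : n ≤ N)
    (hv : (v : ℝ) = L * y ^ (e + 2)) (hy : y = n + β + φ) (hyR : y ≤ R) (hyR2 : R / 2 ≤ n + β) (hR : 0 < R)
    (hδ : 0 < δ) (h1 : δ ≤ φ) (h2 : φ ≤ K * δ - δ) (hδA : L * (e + 2) * R ^ (e + 1) * (K * δ) = A)
    (hA : 8 * K * (C + 1) * (N : ℝ) ^ e ≤ A) :
    ∃ a ∈ Icc 1 A, (v : ℤ) = F.eval (n : ℤ) + (a : ℕ) := by
  have hL0 : (0 : ℝ) < L := by exact_mod_cast hL1
  have hK0 : (0 : ℝ) < K := by exact_mod_cast hK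
  have hN1 : (1 : ℝ) ≤ N := by exact_mod_cast hn1.trans hnN
  have hnb0 : 0 ≤ (n : ℝ) + β := by linarith
  have hy0 : 0 ≤ y := by linarith
  obtain ⟨D, hD⟩ : ∃ D : ℤ, D = (v : ℤ) - F.eval (n : ℤ) := ⟨_, rfl⟩
  have hDr : (D : ℝ) = (v : ℝ) - ((F.eval (n : ℤ) : ℤ) : ℝ) := by rw [hD]; push_cast; ring
  have hpd := pow_diff (e + 2) y ((n : ℝ) + β) hnb0 (by linarith)
  have hyφ : y - ((n : ℝ) + β) = φ := by linarith
  rw [hyφ] at hpd
  have he1 : e + 2 - 1 = e + 1 := by omega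
  rw [he1] at hpd
  push_cast at hpd
  have happn := abs_le.mp (happ n hn1)
  have hne : (n : ℝ) ^ e ≤ (N : ℝ) ^ e := by
    have : (n : ℝ) ≤ N := by exact_mod_cast hnN
    gcongr
  have hCn : C * (n : ℝ) ^ e ≤ C * (N : ℝ) ^ e := by gcongr
  have hNe : (1 : ℝ) ≤ (N : ℝ) ^ e := one_le_pow₀ hN1
  have hAK : 8 * (C + 1) * (N : ℝ) ^ e ≤ L * (e + 2) * R ^ (e + 1) * δ := by
    have h3 : K * (8 * (C + 1) * (N : ℝ) ^ e) ≤ K * (L * (e + 2) * R ^ (e + 1) * δ) := by
      calc K * (8 * (C + 1) * (N : ℝ) ^ e) = 8 * K * (C + 1) * (N : ℝ) ^ e := by ring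
        _ ≤ A := hA
        _ = L * (e + 2) * R ^ (e + 1) * (K * δ) := hδA.symm
        _ = _ := by ring
    exact le_of_mul_le_mul_left h3 hK0
  have hφ0 : 0 ≤ φ := hδ.le.trans h1
  have hup : (D : ℝ) ≤ A := by
    have h3 : L * y ^ (e + 2) - L * ((n : ℝ) + β) ^ (e + 2) ≤ L * (e + 2) * R ^ (e + 1) * (K * δ - δ) := by
      calc L * y ^ (e + 2) - L * ((n : ℝ) + β) ^ (e + 2) = L * (y ^ (e + 2) - ((n : ℝ) + β) ^ (e + 2)) := by ring
        _ ≤ L * ((e + 2) * y ^ (e + 1) * φ) := by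
            apply mul_le_mul_of_nonneg_left hpd.2 hL0.le
        _ ≤ L * ((e + 2) * R ^ (e + 1) * (K * δ - δ)) := by gcongr
        _ = _ := by ring
    have h4 : L * (e + 2) * R ^ (e + 1) * (K * δ - δ) = A - L * (e + 2) * R ^ (e + 1) * δ := by
      rw [← hδA]; ring
    rw [hDr, hv]
    nlinarith [happn.1, happn.2, hCn, hAK, h3, h4, hNe, mul_nonneg hC (le_trans zero_le_one hNe)]
  have hlow : (0 : ℝ) < D := by
    have h3 : L * (e + 2) * (R / 2) ^ (e + 1) * δ ≤ L * y ^ (e + 2) - L * ((n : ℝ) + β) ^ (e + 2) := by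
      calc L * (e + 2) * (R / 2) ^ (e + 1) * δ = L * ((e + 2) * (R / 2) ^ (e + 1) * δ) := by ring
        _ ≤ L * ((e + 2) * ((n : ℝ) + β) ^ (e + 1) * φ) := by gcongr
        _ ≤ L * (y ^ (e + 2) - ((n : ℝ) + β) ^ (e + 2)) := by
            apply mul_le_mul_of_nonneg_left hpd.1 hL0.le
        _ = _ := by ring
    have h4 : (1 / 8 : ℝ) * (L * (e + 2) * R ^ (e + 1) * δ) ≤ L * (e + 2) * (R / 2) ^ (e + 1) * δ := by
      have h5 : (1 / 8 : ℝ) ≤ (1 / 2) ^ (e + 1) := by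
        calc (1 / 8 : ℝ) = (1 / 2) ^ 3 := by norm_num
          _ ≤ (1 / 2) ^ (e + 1) := pow_le_pow_of_le_one (by norm_num) (by norm_num) (by omega)
      calc (1 / 8 : ℝ) * (L * (e + 2) * R ^ (e + 1) * δ) ≤ (1 / 2) ^ (e + 1) * (L * (e + 2) * R ^ (e + 1) * δ) := by
            gcongr
        _ = L * (e + 2) * (R / 2) ^ (e + 1) * δ := by
            rw [show R / 2 = 1 / 2 * R by ring, mul_pow]; ring
    rw [hDr, hv]
    nlinarith [happn.1, happn.2, hCn, hAK, h3, h4, hNe, mul_nonneg hC (le_trans zero_le_one hNe)]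
  have hD1 : 0 < D := by exact_mod_cast hlow
  have hDA : D ≤ A := by exact_mod_cast hup
  refine ⟨D.toNat, ?_, ?_⟩
  · rw [Finset.mem_Icc]
    omega
  · have : ((D.toNat : ℕ) : ℤ) = D := Int.toNat_of_nonneg hD1.le
    rw [this, hD]
    ring

/-- `p` is a prime `F(n) + a` -/
def IsPS (F : ℤ[X]) (N A p : ℕ) : Prop := p.Prime ∧ ∃ n ∈ Icc 1 N, ∃ a ∈ Icc 1 A, (p : ℤ) = F.eval (n : ℤ) + (a : ℕ)

open Classical in
/-- the primes `F(n) + a` -/
noncomputable def PS (F : ℤ[X]) (N A Z : ℕ) : Finset ℕ := (Ioc 0 Z).filter (fun p => IsPS F N A p)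

lemma mem_PS {F : ℤ[X]} {N A Z p : ℕ} : p ∈ PS F N A Z ↔
    (0 < p ∧ p ≤ Z) ∧ p.Prime ∧ ∃ n ∈ Icc 1 N, ∃ a ∈ Icc 1 A, (p : ℤ) = F.eval (n : ℤ) + (a : ℕ) := by
  classical
  unfold PS
  rw [Finset.mem_filter, Finset.mem_Ioc]
  rfl

lemma card_PS (F : ℤ[X]) (N A Z : ℕ) : ((PS F N A Z).card : ℝ) ≤ ∑ a ∈ Icc 1 A, (P F a N : ℝ) := by
  classical
  have h1 : PS F N A Z ⊆ (Icc 1 A).biUnion (fun a : ℕ =>
      ((Icc 1 N).filter (fun n : ℕ => Nat.Prime (F.eval (n : ℤ) + a).toNat)).image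
        (fun n : ℕ => (F.eval (n : ℤ) + a).toNat)) := by
    intro p hp
    rw [mem_PS] at hp
    obtain ⟨_, hp, n, hn, a, ha, hpa⟩ := hp
    have h2 : (F.eval (n : ℤ) + (a : ℕ)).toNat = p := by rw [← hpa, Int.toNat_natCast]
    rw [Finset.mem_biUnion]
    refine ⟨a, ha, ?_⟩
    rw [Finset.mem_image]
    refine ⟨n, ?_, h2⟩
    rw [Finset.mem_filter]
    refine ⟨hn, ?_⟩
    rw [h2]
    exact hp
  have h2 : (PS F N A Z).card ≤ ∑ a ∈ Icc 1 A, P F a N := by
    refine (Finset.card_le_card h1).trans (Finset.card_biUnion_le.trans ?_)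
    apply Finset.sum_le_sum
    intro a _
    unfold P
    exact Finset.card_image_le
  exact_mod_cast h2

lemma log_PS (F : ℤ[X]) (N A L d : ℕ) (hN : 1 ≤ N) (hL : 1 ≤ L) :
    ∑ p ∈ PS F N A (L * N ^ d), Real.log p ≤
      (d * Real.log N + Real.log L) * ∑ a ∈ Icc 1 A, (P F a N : ℝ) := by
  have hlog : 0 ≤ Real.log N := Real.log_nonneg (by exact_mod_cast hN)
  have hlogL : 0 ≤ Real.log L := Real.log_nonneg (by exact_mod_cast hL)
  calc ∑ p ∈ PS F N A (L * N ^ d), Real.log p ≤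
        ∑ p ∈ PS F N A (L * N ^ d), (d * Real.log N + Real.log L) := by
        apply Finset.sum_le_sum
        intro p hp
        rw [mem_PS] at hp
        have h1 : (p : ℝ) ≤ (L : ℝ) * (N : ℝ) ^ d := by exact_mod_cast hp.1.2
        have h2 : (0 : ℝ) < p := by exact_mod_cast hp.1.1
        have hN0 : (0 : ℝ) < N := by exact_mod_cast hN
        have hL0 : (0 : ℝ) < L := by exact_mod_cast hL
        calc Real.log p ≤ Real.log ((L : ℝ) * (N : ℝ) ^ d) := Real.log_le_log h2 h1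
          _ = d * Real.log N + Real.log L := by
            rw [Real.log_mul hL0.ne' (by positivity), Real.log_pow]; ring
    _ = (d * Real.log N + Real.log L) * (PS F N A (L * N ^ d)).card := by
        rw [Finset.sum_const, nsmul_eq_mul]; ring
    _ ≤ _ := by
        apply mul_le_mul_of_nonneg_left (card_PS F N A _) (by positivity)

open Classical in
/-- the bound in one cell, general phases -/
lemma cell_gen (Q : ℕ → Prop) (θ : ℕ → ℝ) (k X X' : ℕ) (δ η₁ C₀ : ℝ) (hδ : 0 < δ)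
    (hk2 : ((k : ℝ) + 1) * δ ≤ 1 / 2)
    (hT : ∀ t : ℝ, |∑ v ∈ Ioc X X', ArithmeticFunction.vonMangoldt v * tri δ (θ v + t) -
      δ * ∑ v ∈ Ioc X X', ArithmeticFunction.vonMangoldt v| ≤ η₁ * (δ * X))
    (hQ : ∀ v ∈ Ioc X X', v.Prime → 0 < Int.fract (θ v) → Int.fract (θ v) < ((k : ℝ) + 1) * δ → Q v)
    (hC₀ : ∀ x : ℝ, Chebyshev.psi x - Chebyshev.theta x ≤ C₀ * x.sqrt) :
    k * (δ * ∑ v ∈ Ioc X X', ArithmeticFunction.vonMangoldt v - η₁ * (δ * X)) - C₀ * √(X' : ℝ) ≤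
      ∑ p ∈ Ioc X X', if Q p then Real.log p else 0 := by
  set W := ∑ v ∈ Ioc X X', ArithmeticFunction.vonMangoldt v with hW
  have h1 : k * (δ * W - η₁ * (δ * X)) ≤
      ∑ j ∈ range k, ∑ v ∈ Ioc X X', ArithmeticFunction.vonMangoldt v *
        tri δ (θ v + -((j + 1 : ℝ) * δ)) := by
    calc k * (δ * W - η₁ * (δ * X)) = ∑ j ∈ range k, (δ * W - η₁ * (δ * X)) := by
          rw [Finset.sum_const, Finset.card_range, nsmul_eq_mul]
      _ ≤ _ := by
          apply Finset.sum_le_sum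
          intro j _
          have h2 := (abs_le.mp (hT (-((j + 1 : ℝ) * δ)))).1
          linarith
  have h2 : ∑ j ∈ range k, ∑ v ∈ Ioc X X', ArithmeticFunction.vonMangoldt v *
        tri δ (θ v + -((j + 1 : ℝ) * δ)) =
      ∑ v ∈ Ioc X X', ArithmeticFunction.vonMangoldt v *
        ∑ j ∈ range k, tri δ (θ v + -((j + 1 : ℝ) * δ)) := by
    rw [Finset.sum_comm]
    apply Finset.sum_congr rfl
    intro v _
    rw [Finset.mul_sum]
  rw [h2] at h1
  have h3 : ∑ v ∈ Ioc X X', ArithmeticFunction.vonMangoldt v *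
        ∑ j ∈ range k, tri δ (θ v + -((j + 1 : ℝ) * δ)) ≤
      ∑ v ∈ Ioc X X', ((if Q v then Real.log v else 0) +
        (if ¬ v.Prime then ArithmeticFunction.vonMangoldt v else 0)) := by
    apply Finset.sum_le_sum
    intro v hv
    have hv0 : (0 : ℝ) ≤ Real.log v := Real.log_natCast_nonneg v
    have h4 := sum_tri_le hδ (θ v) k hk2
    have hL := ArithmeticFunction.vonMangoldt_nonneg (n := v)
    calc ArithmeticFunction.vonMangoldt v * ∑ j ∈ range k, tri δ (θ v + -((j + 1 : ℝ) * δ))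
        ≤ ArithmeticFunction.vonMangoldt v *
          (if (0 < Int.fract (θ v) ∧ Int.fract (θ v) < ((k : ℝ) + 1) * δ) then 1 else 0) := by
          apply mul_le_mul_of_nonneg_left h4 hL
      _ ≤ _ := by
        by_cases hp : v.Prime
        · simp only [hp, not_true_eq_false, if_false, add_zero]
          split_ifs with hc hm hm
          · rw [ArithmeticFunction.vonMangoldt_apply_prime hp, mul_one]
          · exfalso
            exact hm (hQ v hv hp hc.1 hc.2)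
          · rw [mul_zero]; exact hv0
          · rw [mul_zero]
        · simp only [hp, not_false_eq_true, if_true]
          have h5 : 0 ≤ (if Q v then Real.log v else 0) := by
            split_ifs
            · exact hv0
            · exact le_rfl
          have h6 : ArithmeticFunction.vonMangoldt v *
            (if (0 < Int.fract (θ v) ∧ Int.fract (θ v) < ((k : ℝ) + 1) * δ) then 1 else 0) ≤
              ArithmeticFunction.vonMangoldt v := by
            split_ifs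
            · rw [mul_one]
            · rw [mul_zero]; exact hL
          linarith
  rw [Finset.sum_add_distrib] at h3
  have h7 : ∑ v ∈ Ioc X X', (if ¬ v.Prime then ArithmeticFunction.vonMangoldt v else 0) ≤ C₀ * √(X' : ℝ) := by
    calc ∑ v ∈ Ioc X X', (if ¬ v.Prime then ArithmeticFunction.vonMangoldt v else 0)
        ≤ ∑ v ∈ Ioc 0 X', (if ¬ v.Prime then ArithmeticFunction.vonMangoldt v else 0) := by
          apply Finset.sum_le_sum_of_subset_of_nonneg
          · intro v hv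
            rw [Finset.mem_Ioc] at hv ⊢
            omega
          · intro v _ _
            split_ifs
            · exact le_rfl
            · exact ArithmeticFunction.vonMangoldt_nonneg
      _ = Chebyshev.psi (X' : ℝ) - Chebyshev.theta (X' : ℝ) := by
          rw [Chebyshev.psi_sub_theta_eq_sum_not_prime, Nat.floor_natCast, Finset.sum_filter]
      _ ≤ C₀ * √(X' : ℝ) := hC₀ _
  linarith

/-- the algebra of one cell -/
lemma term_alg (e : ℕ) (he : e ≤ 2) (K M i A L W : ℝ) (hK : 6 ≤ K) (hM : 0 < M) (hA : 0 ≤ A) (hL : 0 < L)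
    (hi : K ≤ i) (hi2 : i + 1 ≤ K ^ 2)
    (hW : L * ((i + 1) * M) ^ (e + 2) - L * (i * M) ^ (e + 2) -
      2 * (1 / (4 * K ^ 3)) * (L * ((i + 1) * M) ^ (e + 2)) ≤ W) :
    (1 - 3 / K) * (1 - 4 / K) * (A * M) ≤
      (K - 3) * ((A / (L * (e + 2) * ((i + 1) * M) ^ (e + 1)) / K) * W - 1 / (2 * K ^ 3) *
        ((A / (L * (e + 2) * ((i + 1) * M) ^ (e + 1)) / K) * (L * (i * M) ^ (e + 2)))) := by
  have hK0 : 0 < K := by linarith
  have hi0 : 0 < i + 1 := by linarith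
  have he0 : (0 : ℝ) ≤ e := Nat.cast_nonneg _
  have he3 : (e : ℝ) ≤ 2 := by exact_mod_cast he
  obtain ⟨R, hR⟩ : ∃ R, R = (i + 1) * M := ⟨_, rfl⟩
  have hR0 : 0 < R := by rw [hR]; positivity
  rw [← hR] at hW ⊢
  have hiM : i * M = R - M := by rw [hR]; ring
  have hiM0 : 0 ≤ i * M := by
    have : 0 ≤ i := by linarith
    positivity
  have hMR : M * K ≤ R := by rw [hR]; nlinarith
  -- (a)
  have ha := (pow_diff (e + 2) R (i * M) hiM0 (by rw [hiM]; linarith)).1
  have he1 : e + 2 - 1 = e + 1 := by omega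
  rw [he1] at ha
  have hRm : R - i * M = M := by rw [hiM]; ring
  rw [hRm] at ha
  push_cast at ha
  -- (b)
  have hb : R ^ (e + 1) * (1 - 3 / K) ≤ (i * M) ^ (e + 1) := by
    have h1 : i * M = R * (1 + -(1 / (i + 1))) := by rw [hR]; field_simp; ring
    have h2 : 1 / (i + 1) ≤ 1 / K := by
      apply one_div_le_one_div_of_le hK0
      linarith
    have h3 := one_add_mul_le_pow (show (-2 : ℝ) ≤ -(1 / (i + 1)) by
      have : 1 / K ≤ 1 := by rw [div_le_one hK0]; linarith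
      linarith) (e + 1)
    rw [h1, mul_pow]
    apply mul_le_mul_of_nonneg_left _ (by positivity)
    refine le_trans ?_ h3
    push_cast
    have h4 : ((e : ℝ) + 1) * (1 / (i + 1)) ≤ 3 * (1 / K) := by
      apply mul_le_mul (by linarith) h2 (by positivity) (by norm_num)
    have h5 : 3 / K = 3 * (1 / K) := by ring
    rw [h5]
    linarith
  -- (c)
  have hc : 1 / K ^ 3 * (L * R ^ (e + 2)) ≤ 1 / K * (L * (R ^ (e + 1) * M)) := by
    have h1 : R ≤ K ^ 2 * M := by rw [hR]; gcongr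
    calc 1 / K ^ 3 * (L * R ^ (e + 2)) = 1 / K ^ 3 * (L * (R ^ (e + 1) * R)) := by ring
      _ ≤ 1 / K ^ 3 * (L * (R ^ (e + 1) * (K ^ 2 * M))) := by gcongr
      _ = 1 / K * (L * (R ^ (e + 1) * M)) := by field_simp
  have hd : 1 / (2 * K ^ 3) * (L * (i * M) ^ (e + 2)) ≤ 1 / (2 * K ^ 3) * (L * R ^ (e + 2)) := by
    have : i * M ≤ R := by rw [hiM]; linarith
    gcongr
  have hmain : L * R ^ (e + 1) * M * ((e + 2) * (1 - 4 / K)) ≤ W - 1 / (2 * K ^ 3) * (L * (i * M) ^ (e + 2)) := by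
    have h1 : L * ((e + 2) * (R ^ (e + 1) * (1 - 3 / K)) * M) ≤ L * (R ^ (e + 2) - (i * M) ^ (e + 2)) := by
      apply mul_le_mul_of_nonneg_left _ hL.le
      refine le_trans ?_ ha
      gcongr
    have h2 : 2 * (1 / (4 * K ^ 3)) * (L * R ^ (e + 2)) + 1 / (2 * K ^ 3) * (L * R ^ (e + 2)) =
        1 / K ^ 3 * (L * R ^ (e + 2)) := by
      field_simp
      ring
    have h3 : L * R ^ (e + 1) * M * ((e + 2) * (1 - 4 / K)) ≤
        L * ((e + 2) * (R ^ (e + 1) * (1 - 3 / K)) * M) - 1 / K * (L * (R ^ (e + 1) * M)) := by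
      have h4 : L * ((e + 2) * (R ^ (e + 1) * (1 - 3 / K)) * M) - 1 / K * (L * (R ^ (e + 1) * M)) -
          L * R ^ (e + 1) * M * ((e + 2) * (1 - 4 / K)) = (L * R ^ (e + 1) * M) * ((e + 1) / K) := by
        field_simp
        ring
      have h5 : 0 ≤ (L * R ^ (e + 1) * M) * ((e + 1) / K) := by positivity
      linarith
    linarith
  have hδ0 : 0 ≤ A / (L * (e + 2) * R ^ (e + 1)) / K := by positivity
  have hK3 : 0 ≤ K - 3 := by linarith
  calc (1 - 3 / K) * (1 - 4 / K) * (A * M)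
      = (K - 3) * (A / (L * (e + 2) * R ^ (e + 1)) / K) * (L * R ^ (e + 1) * M * ((e + 2) * (1 - 4 / K))) := by
        field_simp
    _ ≤ (K - 3) * (A / (L * (e + 2) * R ^ (e + 1)) / K) * (W - 1 / (2 * K ^ 3) * (L * (i * M) ^ (e + 2))) := by
        gcongr
    _ = _ := by ring

end Run7.h994.BPD
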