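import Mathlib
import Pool.Agent.Run7.h994.BPD.FMa

/-!
Project BPD, piece FM (helper994): the first moment, lower bound.
-/

set_option autoImplicit false

namespace Run7.h994.BPD

open Finset Filter Topology
open Pool.Agent.N792 (tri triC)
open Run7.h462.BPD
open Run7.h994.BP (pnt_abs W_ge sum_Ioc_chain)
open scoped Polynomial

lemma rpow_low (e : ℕ) (he : e ≤ 2) (N K Y L ε ε' : ℝ) (hN : 1 ≤ N) (hK : 1 ≤ K) (hL : 1 ≤ L) (hε' : 0 < ε')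
    (h1 : ε' ≤ 1 / 8) (h2 : ε' ≤ ε / 8) (hc : L * (e + 2) * K * (2 * K) ^ (e + 2) ≤ N ^ (ε / 2))
    (hY : N / (2 * K) ≤ Y) :
    (L * Y ^ (e + 2)) ^ (-1 / 4 + ε') ≤ N ^ (-((e : ℝ) + 2) / 4 + ε) / (L * (e + 2) * K) := by
  have hN0 : 0 < N := by linarith
  have hK0 : 0 < 2 * K := by linarith
  have hK0' : 0 < K := by linarith
  have hL0 : 0 < L := by linarith
  have hY0 : 0 < N / (2 * K) := by positivity
  have he0 : (0 : ℝ) ≤ e := Nat.cast_nonneg _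
  have he3 : (e : ℝ) ≤ 2 := by exact_mod_cast he
  have hε : 0 < ε := by linarith
  calc (L * Y ^ (e + 2)) ^ (-1 / 4 + ε') ≤ ((N / (2 * K)) ^ (e + 2)) ^ (-1 / 4 + ε') := by
        apply Real.rpow_le_rpow_of_nonpos (by positivity)
        · calc (N / (2 * K)) ^ (e + 2) ≤ Y ^ (e + 2) := by gcongr
            _ = 1 * Y ^ (e + 2) := (one_mul _).symm
            _ ≤ L * Y ^ (e + 2) := by
                have : 0 ≤ Y ^ (e + 2) := by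
                  have : 0 ≤ Y := hY0.le.trans hY
                  positivity
                gcongr
        · linarith
    _ = (N / (2 * K)) ^ (((e : ℝ) + 2) * (-1 / 4 + ε')) := by
        rw [← Real.rpow_natCast, ← Real.rpow_mul hY0.le]
        push_cast
        rfl
    _ = N ^ (((e : ℝ) + 2) * (-1 / 4 + ε')) * (2 * K) ^ (-(((e : ℝ) + 2) * (-1 / 4 + ε'))) := by
        rw [Real.div_rpow hN0.le hK0.le, Real.rpow_neg hK0.le, div_eq_mul_inv]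
    _ ≤ N ^ (-((e : ℝ) + 2) / 4 + ε / 2) * (2 * K) ^ (((e + 2 : ℕ) : ℝ)) := by
        apply mul_le_mul
        · apply Real.rpow_le_rpow_of_exponent_le hN
          nlinarith
        · apply Real.rpow_le_rpow_of_exponent_le (by linarith)
          push_cast
          nlinarith
        · positivity
        · positivity
    _ = N ^ (-((e : ℝ) + 2) / 4 + ε / 2) * (2 * K) ^ (e + 2) := by rw [Real.rpow_natCast]
    _ = N ^ (-((e : ℝ) + 2) / 4 + ε / 2) * (L * (e + 2) * K * (2 * K) ^ (e + 2)) / (L * (e + 2) * K) := by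
        field_simp
    _ ≤ N ^ (-((e : ℝ) + 2) / 4 + ε / 2) * N ^ (ε / 2) / (L * (e + 2) * K) := by
        gcongr
    _ = N ^ (-((e : ℝ) + 2) / 4 + ε) / (L * (e + 2) * K) := by
        rw [← Real.rpow_add hN0]
        congr 2
        ring

lemma mem_PS_of_fract {F : ℤ[X]} {e : ℕ} (he2 : e ≤ 2) {L : ℕ} {β C s : ℝ} (hL1 : 1 ≤ L) (hC : 0 ≤ C)
    (happ : ∀ n : ℕ, 1 ≤ n → |((F.eval (n : ℤ) : ℤ) : ℝ) - L * ((n : ℝ) + β) ^ (e + 2)| ≤ C * (n : ℝ) ^ e)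
    (hs : s = (L : ℝ) ^ (-1 / ((e : ℝ) + 2))) (N A K M i B v : ℕ) (δ : ℝ) (hβB : |β| + 2 ≤ B) (hK : 6 ≤ K)
    (hiK : K ≤ i) (hiK2 : i + 1 ≤ K ^ 2) (hM : B + 2 ≤ M) (hMN : K ^ 2 * M + B ≤ N) (hδ : 0 < δ)
    (hκ : K * δ ≤ 1 / 2) (hδA : L * (e + 2) * (((i : ℝ) + 1) * M) ^ (e + 1) * (K * δ) = A)
    (hA : 8 * K * (C + 1) * (N : ℝ) ^ e ≤ A) (hv1 : L * (i * M) ^ (e + 2) < v)
    (hv2 : v ≤ L * ((i + 1) * M) ^ (e + 2)) (hp : v.Prime)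
    (h0 : 0 < Int.fract (s * (v : ℝ) ^ (1 / (((e + 2 : ℕ) : ℝ))) + (-β - δ)))
    (h1 : Int.fract (s * (v : ℝ) ^ (1 / (((e + 2 : ℕ) : ℝ))) + (-β - δ)) < (K - 2) * δ) :
    v ∈ PS F N A (L * N ^ (e + 2)) := by
  have hL0 : (0 : ℝ) < L := by exact_mod_cast hL1
  obtain ⟨y, hy⟩ : ∃ y, y = s * (v : ℝ) ^ (1 / (((e + 2 : ℕ) : ℝ))) := ⟨_, rfl⟩
  rw [← hy] at h0 h1
  have hs0 : 0 ≤ s := by rw [hs]; positivity
  have hy0 : 0 ≤ y := by rw [hy]; positivity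
  have hvy : (v : ℝ) = L * y ^ (e + 2) := by
    rw [hy, mul_pow, hs, ← Real.rpow_natCast ((L : ℝ) ^ _), ← Real.rpow_natCast ((v : ℝ) ^ _),
      ← Real.rpow_mul hL0.le, ← Real.rpow_mul (Nat.cast_nonneg v)]
    have e1 : (-1 / ((e : ℝ) + 2)) * ((e + 2 : ℕ) : ℝ) = -1 := by
      push_cast
      field_simp
    have e2 : 1 / (((e + 2 : ℕ) : ℝ)) * ((e + 2 : ℕ) : ℝ) = 1 := by
      push_cast
      field_simp
    rw [e1, e2, Real.rpow_neg_one, Real.rpow_one]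
    field_simp
  obtain ⟨R, hR⟩ : ∃ R, R = ((i : ℝ) + 1) * M := ⟨_, rfl⟩
  have hir : (6 : ℝ) ≤ i := by exact_mod_cast hK.trans hiK
  have hMr : (B : ℝ) + 2 ≤ M := by exact_mod_cast hM
  have hB0 : (0 : ℝ) ≤ B := Nat.cast_nonneg _
  have hM0 : (0 : ℝ) < M := by linarith
  have hR0 : 0 < R := by rw [hR]; positivity
  have hlow : (i : ℝ) * M < y := by
    have h3 : (L : ℝ) * ((i : ℝ) * M) ^ (e + 2) < v := by exact_mod_cast hv1
    rw [hvy] at h3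
    exact lt_of_pow_lt_pow_left₀ (e + 2) hy0 (lt_of_mul_lt_mul_left h3 hL0.le)
  have hhigh : y ≤ R := by
    have h3 : (v : ℝ) ≤ (L : ℝ) * (((i : ℝ) + 1) * M) ^ (e + 2) := by exact_mod_cast hv2
    rw [hvy, ← hR] at h3
    exact (pow_le_pow_iff_left₀ hy0 hR0.le (by omega)).mp (le_of_mul_le_mul_left h3 hL0)
  obtain ⟨f, hf⟩ : ∃ f, f = Int.fract (y + (-β - δ)) := ⟨_, rfl⟩
  obtain ⟨m, hm⟩ : ∃ m : ℤ, m = ⌊y + (-β - δ)⌋ := ⟨_, rfl⟩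
  have hmf : (m : ℝ) + f = y + (-β - δ) := by rw [hm, hf]; exact Int.floor_add_fract _
  rw [← hf] at h0 h1
  have hKr : (6 : ℝ) ≤ K := by exact_mod_cast hK
  have hfδ : f + δ < 1 / 2 := by nlinarith
  have hβ1 := abs_le.mp (show |β| ≤ B - 2 by linarith)
  have hiM : (6 : ℝ) * M ≤ i * M := by gcongr
  have hm1 : (1 : ℝ) ≤ m := by
    have : (m : ℝ) = y - β - (f + δ) := by linarith
    rw [this]
    linarith [hβ1.2]
  have hm1' : 1 ≤ m := by exact_mod_cast hm1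
  obtain ⟨n, hn⟩ : ∃ n : ℕ, (n : ℤ) = m := ⟨m.toNat, Int.toNat_of_nonneg (by omega)⟩
  have hnr : (n : ℝ) = m := by exact_mod_cast hn
  have hn1 : 1 ≤ n := by omega
  have hRN : R + B ≤ N := by
    have h3 : ((K : ℝ) ^ 2 * M + B : ℝ) ≤ N := by exact_mod_cast hMN
    have h4 : (i : ℝ) + 1 ≤ (K : ℝ) ^ 2 := by exact_mod_cast hiK2
    have h5 : R ≤ (K : ℝ) ^ 2 * M := by rw [hR]; gcongr
    linarith
  have hnN : n ≤ N := by
    have : (n : ℝ) ≤ N := by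
      have h3 : (n : ℝ) = y - β - (f + δ) := by linarith
      rw [h3]
      linarith [hβ1.1]
    exact_mod_cast this
  obtain ⟨a, ha, hva⟩ := core he2 hL1 hC happ N A K v R y (f + δ) δ n (by omega) hn1 hnN hvy
    (by linarith) hhigh (by
      have h3 : (n : ℝ) + β = y - (f + δ) := by linarith
      rw [h3]
      have h4 : R / 2 = (i : ℝ) * M - ((i : ℝ) - 1) * M / 2 := by rw [hR]; ring
      have h5 : (5 : ℝ) * M ≤ ((i : ℝ) - 1) * M := by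
        apply mul_le_mul_of_nonneg_right _ hM0.le
        linarith
      linarith) hR0 hδ (by linarith) (by nlinarith) (by rw [hR]; exact hδA) hA
  rw [mem_PS]
  refine ⟨⟨hp.pos, ?_⟩, hp, n, ?_, a, ha, hva⟩
  · refine hv2.trans (Nat.mul_le_mul_left _ (Nat.pow_le_pow_left ?_ _))
    calc (i + 1) * M ≤ K ^ 2 * M := Nat.mul_le_mul_right _ hiK2
      _ ≤ N := by omega
  · rw [Finset.mem_Icc]
    exact ⟨hn1, hnN⟩

/-- the bound in one cell -/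
lemma cell {F : ℤ[X]} {e : ℕ} (he2 : e ≤ 2) {L : ℕ} {β C s : ℝ} (hL1 : 1 ≤ L) (hC : 0 ≤ C)
    (happ : ∀ n : ℕ, 1 ≤ n → |((F.eval (n : ℤ) : ℤ) : ℝ) - L * ((n : ℝ) + β) ^ (e + 2)| ≤ C * (n : ℝ) ^ e)
    (hs : s = (L : ℝ) ^ (-1 / ((e : ℝ) + 2))) (K X₁ B : ℕ) (x₂ C₀ ε ε' : ℝ) (hK6n : 6 ≤ K)
    (hε'0 : 0 < ε') (hε'1 : ε' ≤ 1 / 8) (hε'2 : ε' ≤ ε / 8)
    (hX₁ : ∀ X X' : ℕ, X₁ ≤ X → X ≤ X' → X' ≤ 2 * X → ∀ δ t : ℝ, (X : ℝ) ^ (-1 / 4 + ε') ≤ δ → δ ≤ 1 / 2 →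
      |∑ v ∈ Ioc X X', ArithmeticFunction.vonMangoldt v * tri δ (s * (v : ℝ) ^ (1 / (((e + 2 : ℕ) : ℝ))) + t) -
        δ * ∑ v ∈ Ioc X X', ArithmeticFunction.vonMangoldt v| ≤ 1 / (2 * (K : ℝ) ^ 3) * (δ * X))
    (hx₂ : ∀ x : ℝ, x₂ ≤ x → |Chebyshev.psi x - x| ≤ 1 / (4 * (K : ℝ) ^ 3) * x)
    (hC₀ : ∀ x : ℝ, Chebyshev.psi x - Chebyshev.theta x ≤ C₀ * x.sqrt) (hC₀0 : 0 ≤ C₀) (hB : |β| + 2 ≤ B)
    (N A M : ℕ) (c1 : (L : ℝ) * (e + 2) * K * (2 * K) ^ (e + 2) ≤ (N : ℝ) ^ (ε / 2))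
    (hA1 : (N : ℝ) ^ (3 / 4 * ((e : ℝ) + 2) - 1 + ε) ≤ A)
    (hA2 : (A : ℝ) ≤ 1 / (2 * (K : ℝ)) ^ (e + 1) * (N : ℝ) ^ (e + 1)) (hN1 : 1 ≤ N)
    (hM1 : X₁ + ⌈x₂⌉₊ + B + 2 ≤ M) (hMK : K ^ 2 * M + B ≤ N) (hKM : (N : ℝ) / (2 * K) ≤ K * M)
    (hAbig : 8 * (K : ℝ) * (C + 1) * (N : ℝ) ^ e ≤ A) (hApos : (0 : ℝ) < A) (i : ℕ) (hi1 : K ≤ i)
    (hi2n : i < K ^ 2) :
    (1 - 3 / (K : ℝ)) * (1 - 4 / (K : ℝ)) * (A * M) - C₀ * (L * (N : ℝ) ^ (((e : ℝ) + 2) / 2)) ≤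
      ∑ p ∈ Ioc (L * (i * M) ^ (e + 2)) (L * ((i + 1) * M) ^ (e + 2)),
        @ite _ (p ∈ PS F N A (L * N ^ (e + 2))) (Classical.propDecidable _) (Real.log p) 0 := by
  have he0 : (0 : ℝ) ≤ e := Nat.cast_nonneg _
  have he3 : (e : ℝ) ≤ 2 := by exact_mod_cast he2
  have hL1r : (1 : ℝ) ≤ L := by exact_mod_cast hL1
  have hL0 : (0 : ℝ) < L := by linarith
  have hK6 : (6 : ℝ) ≤ K := by exact_mod_cast hK6n
  have hK0 : (0 : ℝ) < K := by linarith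
  have hNr : (1 : ℝ) ≤ N := by exact_mod_cast hN1
  have hN0 : (0 : ℝ) < N := by linarith
  have hMpos : 0 < M := by omega
  have hM0 : (0 : ℝ) < M := by exact_mod_cast hMpos
  have hA0 : (0 : ℝ) ≤ A := hApos.le
  have hiK : (K : ℝ) ≤ i := by exact_mod_cast hi1
  have hi2 : (i : ℝ) + 1 ≤ (K : ℝ) ^ 2 := by
    have : i + 1 ≤ K ^ 2 := hi2n
    exact_mod_cast this
  have hi0 : (0 : ℝ) < (i : ℝ) + 1 := by linarith
  obtain ⟨R, hR⟩ : ∃ R, R = ((i : ℝ) + 1) * M := ⟨_, rfl⟩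
  have hRN : R ≤ N := by
    have h3 : ((K : ℝ) ^ 2 * M + B : ℝ) ≤ N := by exact_mod_cast hMK
    have h5 : R ≤ (K : ℝ) ^ 2 * M := by rw [hR]; gcongr
    have : (0 : ℝ) ≤ B := Nat.cast_nonneg _
    linarith
  have hR0 : (0 : ℝ) < R := by rw [hR]; positivity
  have hRlow : (N : ℝ) / (2 * K) ≤ R := by
    rw [hR]
    calc (N : ℝ) / (2 * K) ≤ K * M := hKM
      _ ≤ ((i : ℝ) + 1) * M := by
          gcongr
          linarith
  have hilow : (N : ℝ) / (2 * K) ≤ i * M := by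
    calc (N : ℝ) / (2 * K) ≤ K * M := hKM
      _ ≤ i * M := by gcongr
  obtain ⟨δ, hδ⟩ : ∃ δ : ℝ, δ = (A : ℝ) / (L * (e + 2) * R ^ (e + 1)) / K := ⟨_, rfl⟩
  have hδ0 : 0 < δ := by rw [hδ]; positivity
  have hKδ : (K : ℝ) * δ = (A : ℝ) / (L * (e + 2) * R ^ (e + 1)) := by
    rw [hδ]
    field_simp
  have hδA : L * (e + 2) * (((i : ℝ) + 1) * M) ^ (e + 1) * (K * δ) = A := by
    rw [hKδ, ← hR]
    field_simp
  have hRe : 0 ≤ R ^ (e + 1) := by positivity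
  have hκ : (K : ℝ) * δ ≤ 1 / 2 := by
    rw [hKδ, div_le_iff₀ (by positivity)]
    have h1 : (A : ℝ) ≤ R ^ (e + 1) := by
      calc (A : ℝ) ≤ 1 / (2 * (K : ℝ)) ^ (e + 1) * (N : ℝ) ^ (e + 1) := hA2
        _ = (N / (2 * K)) ^ (e + 1) := by rw [div_pow]; ring
        _ ≤ R ^ (e + 1) := by gcongr
    have h3 : (2 : ℝ) ≤ L * (e + 2) := by
      calc (2 : ℝ) = 1 * 2 := by norm_num
        _ ≤ L * (e + 2) := by
          apply mul_le_mul hL1r (by linarith) (by norm_num) hL0.le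
    calc (A : ℝ) ≤ 1 / 2 * (2 * R ^ (e + 1)) := by linarith
      _ ≤ 1 / 2 * (L * (e + 2) * R ^ (e + 1)) := by
          have := mul_le_mul_of_nonneg_right h3 hRe
          linarith
  have hδhalf : δ ≤ 1 / 2 := by
    have : 1 * δ ≤ K * δ := by
      apply mul_le_mul_of_nonneg_right _ hδ0.le
      linarith
    linarith
  have hi1' : 1 ≤ i := by omega
  have hMx : M ≤ L * (i * M) ^ (e + 2) := by
    calc M ≤ i * M := Nat.le_mul_of_pos_left _ hi1'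
      _ ≤ (i * M) ^ (e + 2) := Nat.le_self_pow (by omega) _
      _ ≤ L * (i * M) ^ (e + 2) := Nat.le_mul_of_pos_left _ hL1
  have hX1 : X₁ ≤ L * (i * M) ^ (e + 2) := le_trans (by omega) hMx
  have hx2 : x₂ ≤ ((L * (i * M) ^ (e + 2) : ℕ) : ℝ) := by
    have h2 : ⌈x₂⌉₊ ≤ L * (i * M) ^ (e + 2) := le_trans (by omega) hMx
    calc x₂ ≤ (⌈x₂⌉₊ : ℝ) := Nat.le_ceil _
      _ ≤ _ := by exact_mod_cast h2
  have hXX' : L * (i * M) ^ (e + 2) ≤ L * ((i + 1) * M) ^ (e + 2) := by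
    exact Nat.mul_le_mul_left _ (Nat.pow_le_pow_left (Nat.mul_le_mul_right _ (by omega)) _)
  have hX'2 : L * ((i + 1) * M) ^ (e + 2) ≤ 2 * (L * (i * M) ^ (e + 2)) := by
    have h1 : (i + 1) ^ (e + 2) ≤ 2 * i ^ (e + 2) := by
      have h3 : 6 * (i + 1) ≤ 7 * i := by omega
      have h5 : (6 * (i + 1)) ^ (e + 2) ≤ (7 * i) ^ (e + 2) := Nat.pow_le_pow_left h3 _
      rw [mul_pow, mul_pow] at h5
      have h6 : 7 ^ (e + 2) ≤ 2 * 6 ^ (e + 2) := by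
        interval_cases e <;> norm_num
      have h7 : 6 ^ (e + 2) * (i + 1) ^ (e + 2) ≤ 6 ^ (e + 2) * (2 * i ^ (e + 2)) := by
        calc 6 ^ (e + 2) * (i + 1) ^ (e + 2) ≤ 7 ^ (e + 2) * i ^ (e + 2) := h5
          _ ≤ (2 * 6 ^ (e + 2)) * i ^ (e + 2) := Nat.mul_le_mul_right _ h6
          _ = _ := by ring
      exact Nat.le_of_mul_le_mul_left h7 (by positivity)
    calc L * ((i + 1) * M) ^ (e + 2) = (i + 1) ^ (e + 2) * (L * M ^ (e + 2)) := by rw [mul_pow]; ring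
      _ ≤ (2 * i ^ (e + 2)) * (L * M ^ (e + 2)) := Nat.mul_le_mul_right _ h1
      _ = 2 * (L * (i * M) ^ (e + 2)) := by rw [mul_pow]; ring
  have hlowδ : ((L * (i * M) ^ (e + 2) : ℕ) : ℝ) ^ (-1 / 4 + ε') ≤ δ := by
    have h1 := rpow_low e he2 N K (i * M) L ε ε' hNr (by linarith) hL1r hε'0 hε'1 hε'2 c1 hilow
    push_cast
    refine h1.trans ?_
    rw [hδ, div_div]
    have h3 : (N : ℝ) ^ (-((e : ℝ) + 2) / 4 + ε) * (N : ℝ) ^ (e + 1) ≤ A := by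
      refine le_trans (le_of_eq ?_) hA1
      rw [← Real.rpow_natCast (N : ℝ) (e + 1), ← Real.rpow_add hN0]
      congr 1
      push_cast
      ring
    calc (N : ℝ) ^ (-((e : ℝ) + 2) / 4 + ε) / (L * (e + 2) * K)
        = (N : ℝ) ^ (-((e : ℝ) + 2) / 4 + ε) * (N : ℝ) ^ (e + 1) / (L * (e + 2) * (N : ℝ) ^ (e + 1) * K) := by
          field_simp
      _ ≤ A / (L * (e + 2) * (N : ℝ) ^ (e + 1) * K) := by gcongr
      _ ≤ A / (L * (e + 2) * R ^ (e + 1) * K) := by gcongr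
  have hT := fun t : ℝ => hX₁ (L * (i * M) ^ (e + 2)) (L * ((i + 1) * M) ^ (e + 2)) hX1 hXX' hX'2 δ t hlowδ hδhalf
  have hk1 : (((K - 3 : ℕ) : ℝ) + 1) = (K : ℝ) - 2 := by
    rw [Nat.cast_sub (by omega)]; push_cast; ring
  have hcb := cell_gen (fun p => p ∈ PS F N A (L * N ^ (e + 2)))
    (fun v => s * (v : ℝ) ^ (1 / (((e + 2 : ℕ) : ℝ))) + (-β - δ)) (K - 3)
    (L * (i * M) ^ (e + 2)) (L * ((i + 1) * M) ^ (e + 2)) δ (1 / (2 * (K : ℝ) ^ 3)) C₀ hδ0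
    (by rw [hk1]; linarith)
    (by
      intro t
      have h1 := hT (-β - δ + t)
      simp only [add_assoc] at h1 ⊢
      exact h1)
    (by
      intro v hv hp h0 h1
      rw [Finset.mem_Ioc] at hv
      rw [hk1] at h1
      exact mem_PS_of_fract he2 hL1 hC happ hs N A K M i B v δ hB hK6n hi1 hi2n (by omega) hMK hδ0 hκ hδA
        hAbig hv.1 hv.2 hp h0 h1)
    hC₀
  have hx2' : x₂ ≤ ((L * ((i + 1) * M) ^ (e + 2) : ℕ) : ℝ) := hx2.trans (by exact_mod_cast hXX')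
  have hW := W_ge (1 / (4 * (K : ℝ) ^ 3)) (L * (i * M) ^ (e + 2)) (L * ((i + 1) * M) ^ (e + 2)) (by positivity)
    (hx₂ _ hx2) (hx₂ _ hx2') hXX'
  have hta := term_alg e he2 K M i A L
    (∑ v ∈ Ioc (L * (i * M) ^ (e + 2)) (L * ((i + 1) * M) ^ (e + 2)), ArithmeticFunction.vonMangoldt v)
    hK6 hM0 hA0 hL0 hiK hi2 (by
      refine le_trans (le_of_eq ?_) hW
      push_cast
      ring)
  refine le_trans ?_ hcb
  have e1 : (((K - 3 : ℕ) : ℝ)) = (K : ℝ) - 3 := by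
    rw [Nat.cast_sub (by omega)]; push_cast; ring
  rw [e1]
  have e2 : (A : ℝ) / (L * (e + 2) * (((i : ℝ) + 1) * M) ^ (e + 1)) / K = δ := by rw [hδ, hR]
  rw [e2] at hta
  have e3 : ((L * (i * M) ^ (e + 2) : ℕ) : ℝ) = (L : ℝ) * ((i : ℝ) * M) ^ (e + 2) := by push_cast; ring
  rw [e3]
  have e4 : C₀ * √(((L * ((i + 1) * M) ^ (e + 2) : ℕ) : ℝ)) ≤ C₀ * (L * (N : ℝ) ^ (((e : ℝ) + 2) / 2)) := by
    apply mul_le_mul_of_nonneg_left _ hC₀0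
    rw [Real.sqrt_le_left (by positivity)]
    have h5 : (L * (N : ℝ) ^ (((e : ℝ) + 2) / 2)) ^ 2 = (L : ℝ) ^ 2 * (N : ℝ) ^ (e + 2) := by
      rw [mul_pow, ← Real.rpow_natCast ((N : ℝ) ^ _) 2, ← Real.rpow_mul hN0.le, ← Real.rpow_natCast (N : ℝ) (e + 2)]
      congr 2
      push_cast
      ring
    rw [h5]
    push_cast
    rw [← hR]
    have h6 : (L : ℝ) ≤ (L : ℝ) ^ 2 := by
      rw [pow_two]
      exact le_mul_of_one_le_left hL0.le hL1r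
    gcongr
  linarith

open Classical in
lemma sum_ite_le (S : Finset ℕ) (Q : ℕ → Prop) (hQ : ∀ p, Q p → p ∈ S) (a b : ℕ) :
    ∑ p ∈ Ioc a b, (if Q p then Real.log p else 0) ≤ ∑ p ∈ S, Real.log p := by
  rw [← Finset.sum_filter]
  apply Finset.sum_le_sum_of_subset_of_nonneg
  · intro p hp
    rw [Finset.mem_filter] at hp
    exact hQ p hp.2
  · intro p _ _
    exact Real.log_natCast_nonneg p

/-- the final algebra -/
lemma fin_alg (K A M N B η Er : ℝ) (hK6 : 6 ≤ K) (hA : 0 ≤ A) (hM : 0 ≤ M) (hN : 0 ≤ N) (hη : 0 < η) (hB : 0 ≤ B)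
    (hKη : 8 / K ≤ η / 2) (hMK2 : N - (B + K ^ 2) ≤ K ^ 2 * M) (h9 : A * (B + K ^ 2) ≤ η / 8 * (A * N))
    (h10 : (K ^ 2 - K) * Er ≤ η / 8 * (A * N)) :
    (1 - 3 / 4 * η) * (A * N) ≤ (K ^ 2 - K) * ((1 - 3 / K) * (1 - 4 / K) * (A * M) - Er) := by
  have hK0 : 0 < K := by linarith
  have hAN : 0 ≤ A * N := mul_nonneg hA hN
  have h1 : 1 - 8 / K ≤ (1 - 1 / K) * ((1 - 3 / K) * (1 - 4 / K)) := by
    have hu : 0 < 1 / K := by positivity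
    have hu6 : 1 / K ≤ 1 / 6 := one_div_le_one_div_of_le (by norm_num) hK6
    have e8 : 8 / K = 8 * (1 / K) := by ring
    have e3 : 3 / K = 3 * (1 / K) := by ring
    have e4 : 4 / K = 4 * (1 / K) := by ring
    rw [e8, e3, e4]
    obtain ⟨u, hu'⟩ : ∃ u, u = 1 / K := ⟨_, rfl⟩
    rw [← hu'] at hu hu6 ⊢
    have h5 : 0 ≤ u ^ 2 * (19 - 12 * u) := mul_nonneg (sq_nonneg u) (by linarith)
    have h6 : (1 - u) * ((1 - 3 * u) * (1 - 4 * u)) = 1 - 8 * u + u ^ 2 * (19 - 12 * u) := by ring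
    linarith
  have h2 : (K ^ 2 - K) * ((1 - 3 / K) * (1 - 4 / K) * (A * M)) =
      (1 - 1 / K) * ((1 - 3 / K) * (1 - 4 / K)) * (A * (K ^ 2 * M)) := by
    field_simp
  have h8 : 0 < 8 / K := by positivity
  have h13 : (8 / K) * (A * N) ≤ (η / 2) * (A * N) := mul_le_mul_of_nonneg_right hKη hAN
  have hAKM : 0 ≤ A * (K ^ 2 * M) := by positivity
  have h14 : (1 - 8 / K) * (A * (K ^ 2 * M)) ≤ (K ^ 2 - K) * ((1 - 3 / K) * (1 - 4 / K) * (A * M)) := by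
    rw [h2]
    exact mul_le_mul_of_nonneg_right h1 hAKM
  have h15 : 0 ≤ (K ^ 2 - K) * ((1 - 3 / K) * (1 - 4 / K) * (A * M)) := by
    have h16 : 0 ≤ K ^ 2 - K := by
      have : K ^ 2 - K = K * (K - 1) := by ring
      rw [this]
      apply mul_nonneg hK0.le
      linarith
    have h17 : 0 ≤ 1 - 3 / K := by
      have : 3 / K ≤ 1 := by rw [div_le_one hK0]; linarith
      linarith
    have h18 : 0 ≤ 1 - 4 / K := by
      have : 4 / K ≤ 1 := by rw [div_le_one hK0]; linarith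
      linarith
    exact mul_nonneg h16 (mul_nonneg (mul_nonneg h17 h18) (mul_nonneg hA hM))
  have hgoal : (K ^ 2 - K) * ((1 - 3 / K) * (1 - 4 / K) * (A * M) - Er) =
      (K ^ 2 - K) * ((1 - 3 / K) * (1 - 4 / K) * (A * M)) - (K ^ 2 - K) * Er := by ring
  rw [hgoal]
  rcases lt_or_ge (1 - 8 / K) 0 with h | h
  · have h19 : 1 - η / 2 < 0 := by linarith
    have h20 : (1 - η / 2) * (A * N) ≤ 0 := mul_nonpos_of_nonpos_of_nonneg h19.le hAN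
    have h21 : 0 ≤ η * (A * N) := by positivity
    have h22 : (1 - 3 / 4 * η) * (A * N) = (1 - η / 2) * (A * N) - η / 4 * (A * N) := by ring
    rw [h22]
    linarith
  · have h5 : A * (N - (B + K ^ 2)) ≤ A * (K ^ 2 * M) := mul_le_mul_of_nonneg_left hMK2 hA
    have h6 := mul_le_mul_of_nonneg_left h5 h
    have h7 : (1 - 8 / K) * (A * (B + K ^ 2)) ≤ 1 * (A * (B + K ^ 2)) := by
      apply mul_le_mul_of_nonneg_right _ (by positivity)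
      linarith
    have h23 : (1 - 8 / K) * (A * (N - (B + K ^ 2))) = (A * N) - 8 / K * (A * N) -
        (1 - 8 / K) * (A * (B + K ^ 2)) := by ring
    rw [h23] at h6
    have h22 : (1 - 3 / 4 * η) * (A * N) = A * N - η / 2 * (A * N) - η / 8 * (A * N) - η / 8 * (A * N) := by ring
    rw [h22]
    linarith

/-- division by the logarithm -/
lemma log_alg (e AN lN lL S η : ℝ) (he0 : 0 ≤ e) (hAN : 0 ≤ AN) (hN : 0 < lN) (hL : 0 ≤ lL) (hη : 0 < η)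
    (hLN : lL ≤ η / 4 * lN) (hall : (1 - 3 / 4 * η) * AN ≤ ((e + 2) * lN + lL) * S) :
    (1 - η) * (AN / ((e + 2) * lN)) ≤ S := by
  have hD0 : 0 < (e + 2) * lN := by positivity
  have hDL : 0 < (e + 2) * lN + lL := by linarith
  have hlogLN : lL ≤ η / 4 * ((e + 2) * lN) := by
    have h3 : lN ≤ (e + 2) * lN := le_mul_of_one_le_left hN.le (by linarith)
    calc lL ≤ η / 4 * lN := hLN
      _ ≤ _ := by gcongr
  have hkey : (1 - η) * ((e + 2) * lN + lL) ≤ (1 - 3 / 4 * η) * ((e + 2) * lN) := by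
    have h1 : (1 - η) * lL ≤ lL := by
      have : 0 ≤ η * lL := by positivity
      linarith
    linarith
  have h21 : (1 - η) * AN * ((e + 2) * lN + lL) ≤ (((e + 2) * lN) * S) * ((e + 2) * lN + lL) := by
    calc (1 - η) * AN * ((e + 2) * lN + lL) = ((1 - η) * ((e + 2) * lN + lL)) * AN := by ring
      _ ≤ ((1 - 3 / 4 * η) * ((e + 2) * lN)) * AN := mul_le_mul_of_nonneg_right hkey hAN
      _ = ((e + 2) * lN) * ((1 - 3 / 4 * η) * AN) := by ring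
      _ ≤ ((e + 2) * lN) * (((e + 2) * lN + lL) * S) := mul_le_mul_of_nonneg_left hall hD0.le
      _ = _ := by ring
  have h22 : (1 - η) * AN ≤ ((e + 2) * lN) * S := le_of_mul_le_mul_right h21 hDL
  calc (1 - η) * (AN / ((e + 2) * lN)) = ((1 - η) * AN) / ((e + 2) * lN) := by ring
    _ ≤ S := by
        rw [div_le_iff₀ hD0]
        linarith

theorem fm {F : ℤ[X]} (h2 : 2 ≤ F.natDegree) (h4 : F.natDegree ≤ 4) (hl : 0 < F.leadingCoeff)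
    (hTRI : S_TRI ((F.leadingCoeff : ℝ) ^ (-1 / (F.natDegree : ℝ))) F.natDegree) : S_FM F := by
  obtain ⟨e, he⟩ : ∃ e, F.natDegree = e + 2 := ⟨F.natDegree - 2, by omega⟩
  have he2 : e ≤ 2 := by omega
  have he0 : (0 : ℝ) ≤ e := Nat.cast_nonneg _
  have he3 : (e : ℝ) ≤ 2 := by exact_mod_cast he2
  obtain ⟨L, hL⟩ : ∃ L : ℕ, (L : ℤ) = F.leadingCoeff := ⟨F.leadingCoeff.toNat, Int.toNat_of_nonneg hl.le⟩
  have hL1 : 1 ≤ L := by omega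
  have hL1r : (1 : ℝ) ≤ L := by exact_mod_cast hL1
  have hL0 : (0 : ℝ) < L := by linarith
  obtain ⟨β, hβ⟩ : ∃ β : ℝ, β = (F.coeff (e + 1) : ℝ) / ((e + 2) * L) := ⟨_, rfl⟩
  obtain ⟨C, hC, happ⟩ := approx F he hL hL1 hβ
  obtain ⟨s, hs⟩ : ∃ s : ℝ, s = (L : ℝ) ^ (-1 / ((e : ℝ) + 2)) := ⟨_, rfl⟩
  have hTRI' : S_TRI s (e + 2) := by
    rw [he, ← hL] at hTRI
    have e1 : ((((L : ℕ) : ℤ)) : ℝ) ^ (-1 / ((e + 2 : ℕ) : ℝ)) = s := by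
      rw [hs]; push_cast; rfl
    rw [e1] at hTRI
    exact hTRI
  intro η hη
  obtain ⟨K, hK⟩ := exists_nat_ge (max 6 (16 / η))
  have hK6 : (6 : ℝ) ≤ K := (le_max_left _ _).trans hK
  have hK16 : 16 / η ≤ K := (le_max_right _ _).trans hK
  have hK6n : 6 ≤ K := by exact_mod_cast hK6
  have hK0 : (0 : ℝ) < K := by linarith
  have hKη : 8 / (K : ℝ) ≤ η / 2 := by
    rw [div_le_iff₀ hK0]
    rw [div_le_iff₀ hη] at hK16
    linarith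
  refine ⟨1 / (2 * (K : ℝ)) ^ (e + 1), by positivity, fun ε hε => ?_⟩
  obtain ⟨ε', hε'⟩ : ∃ x, x = min ε 1 / 8 := ⟨_, rfl⟩
  have hε'0 : 0 < ε' := by
    rw [hε']
    have : 0 < min ε 1 := lt_min hε one_pos
    positivity
  have hε'1 : ε' ≤ 1 / 8 := by
    rw [hε']
    linarith [min_le_right ε 1]
  have hε'2 : ε' ≤ ε / 8 := by
    rw [hε']
    linarith [min_le_left ε 1]
  obtain ⟨X₁, hX₁⟩ := hTRI' ε' (1 / (2 * (K : ℝ) ^ 3)) hε'0 (by positivity)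
  obtain ⟨x₂, hx₂⟩ := pnt_abs (1 / (4 * (K : ℝ) ^ 3)) (by positivity)
  obtain ⟨C₀', hC₀'⟩ := Chebyshev.psi_sub_theta_le_mul_sqrt
  obtain ⟨C₀, hC₀d⟩ : ∃ C₀, C₀ = max C₀' 0 := ⟨_, rfl⟩
  have hC₀0 : 0 ≤ C₀ := by rw [hC₀d]; exact le_max_right _ _
  have hC₀ : ∀ x : ℝ, Chebyshev.psi x - Chebyshev.theta x ≤ C₀ * x.sqrt := fun x =>
    (hC₀' x).trans (mul_le_mul_of_nonneg_right (by rw [hC₀d]; exact le_max_left _ _) (Real.sqrt_nonneg _))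
  obtain ⟨B, hB⟩ := exists_nat_ge (|β| + 2)
  have tend : ∀ a : ℝ, 0 < a → Tendsto (fun X : ℕ => (X : ℝ) ^ a) atTop atTop := fun a ha =>
    (tendsto_rpow_atTop ha).comp tendsto_natCast_atTop_atTop
  have ev1 : ∀ᶠ N : ℕ in atTop, (L : ℝ) * (e + 2) * K * (2 * K) ^ (e + 2) ≤ (N : ℝ) ^ (ε / 2) :=
    (tend _ (by positivity)).eventually_ge_atTop _
  have ev2 : ∀ᶠ N : ℕ in atTop, 8 * (K : ℝ) * (C + 1) ≤ (N : ℝ) ^ ε :=
    (tend _ (by positivity)).eventually_ge_atTop _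
  have ev3 : ∀ᶠ N : ℕ in atTop, 8 * ((B : ℝ) + (K : ℝ) ^ 2) / η ≤ (N : ℝ) ^ (1 : ℝ) :=
    (tend _ (by positivity)).eventually_ge_atTop _
  have ev4 : ∀ᶠ N : ℕ in atTop, 8 * ((K : ℝ) ^ 2 * C₀ * L) / η ≤ (N : ℝ) ^ (1 / 2 : ℝ) :=
    (tend _ (by positivity)).eventually_ge_atTop _
  have ev5 : ∀ᶠ N : ℕ in atTop, 4 * Real.log L / η ≤ Real.log N :=
    (Real.tendsto_log_atTop.comp tendsto_natCast_atTop_atTop).eventually_ge_atTop _
  obtain ⟨N₀, hN₀⟩ := eventually_atTop.mp (ev1.and (ev2.and (ev3.and (ev4.and (ev5.and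
    (eventually_ge_atTop (2 * K ^ 2 * (X₁ + ⌈x₂⌉₊ + B + 4))))))))
  refine ⟨N₀, fun N hN A hA1 hA2 => ?_⟩
  obtain ⟨c1, c2, c3, c4, c5, c6⟩ := hN₀ N hN
  clear ev1 ev2 ev3 ev4 ev5 hN₀ tend
  rw [Real.rpow_one] at c3
  rw [he] at hA1 hA2 ⊢
  have hd1 : e + 2 - 1 = e + 1 := by omega
  rw [hd1] at hA2
  push_cast at hA1 ⊢
  have hK2pos : 0 < K ^ 2 := by positivity
  have hBK : B ≤ K ^ 2 * B := Nat.le_mul_of_pos_left _ hK2pos
  have hc6a : K ^ 2 * (X₁ + ⌈x₂⌉₊ + B + 2) + B ≤ N := by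
    refine le_trans ?_ c6
    calc K ^ 2 * (X₁ + ⌈x₂⌉₊ + B + 2) + B ≤ K ^ 2 * (X₁ + ⌈x₂⌉₊ + B + 4) + K ^ 2 * (X₁ + ⌈x₂⌉₊ + B + 4) := by
          apply Nat.add_le_add
          · exact Nat.mul_le_mul_left _ (by omega)
          · exact hBK.trans (Nat.mul_le_mul_left _ (by omega))
      _ = 2 * K ^ 2 * (X₁ + ⌈x₂⌉₊ + B + 4) := by ring
  have hN1 : 1 ≤ N := by
    have : 0 < K ^ 2 * (X₁ + ⌈x₂⌉₊ + B + 2) := by positivity
    omega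
  have hNr : (1 : ℝ) ≤ N := by exact_mod_cast hN1
  have hN0 : (0 : ℝ) < N := by linarith
  -- M
  obtain ⟨M, hM⟩ : ∃ M, M = (N - B) / K ^ 2 := ⟨_, rfl⟩
  have hM1 : X₁ + ⌈x₂⌉₊ + B + 2 ≤ M := by
    rw [hM, Nat.le_div_iff_mul_le hK2pos, mul_comm]
    omega
  have hMpos : 0 < M := by omega
  have hM0 : (0 : ℝ) < M := by exact_mod_cast hMpos
  have hMK : K ^ 2 * M + B ≤ N := by
    have h1 : K ^ 2 * M ≤ N - B := by rw [hM]; exact Nat.mul_div_le (N - B) (K ^ 2)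
    omega
  have hMK2 : (N : ℝ) - ((B : ℝ) + (K : ℝ) ^ 2) ≤ (K : ℝ) ^ 2 * M := by
    have h1 : N ≤ K ^ 2 * M + K ^ 2 + B := by
      have h2 := Nat.div_add_mod (N - B) (K ^ 2)
      have h3 := Nat.mod_lt (N - B) hK2pos
      rw [← hM] at h2
      omega
    have h4 : (N : ℝ) ≤ (K : ℝ) ^ 2 * M + (K : ℝ) ^ 2 + B := by exact_mod_cast h1
    linarith
  have hKM : (N : ℝ) / (2 * K) ≤ K * M := by
    rw [div_le_iff₀ (by positivity)]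
    have h1 : 2 * (B + K ^ 2) ≤ N := by
      refine le_trans ?_ c6
      calc 2 * (B + K ^ 2) ≤ 2 * (K ^ 2 * B + K ^ 2 * 1) := by omega
        _ = 2 * K ^ 2 * (B + 1) := by ring
        _ ≤ 2 * K ^ 2 * (X₁ + ⌈x₂⌉₊ + B + 4) := Nat.mul_le_mul_left _ (by omega)
    have h2 : 2 * ((B : ℝ) + (K : ℝ) ^ 2) ≤ N := by exact_mod_cast h1
    have h3 : (K : ℝ) * M * (2 * K) = 2 * ((K : ℝ) ^ 2 * M) := by ring
    rw [h3]
    linarith
  have hA0 : (0 : ℝ) ≤ A := Nat.cast_nonneg _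
  have hApos : (0 : ℝ) < A := lt_of_lt_of_le (Real.rpow_pos_of_pos hN0 _) hA1
  have hAbig : 8 * (K : ℝ) * (C + 1) * (N : ℝ) ^ e ≤ A := by
    calc 8 * (K : ℝ) * (C + 1) * (N : ℝ) ^ e ≤ (N : ℝ) ^ ε * (N : ℝ) ^ e := by gcongr
      _ = (N : ℝ) ^ (ε + (e : ℝ)) := by rw [Real.rpow_add hN0, Real.rpow_natCast]
      _ ≤ (N : ℝ) ^ (3 / 4 * ((e : ℝ) + 2) - 1 + ε) := by
          apply Real.rpow_le_rpow_of_exponent_le hNr
          linarith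
      _ ≤ A := hA1
  -- the cells
  obtain ⟨x, hx⟩ : ∃ x : ℕ → ℕ, x = fun i => L * (i * M) ^ (e + 2) := ⟨_, rfl⟩
  have hxmono : Monotone x := by
    intro a b hab
    rw [hx]
    exact Nat.mul_le_mul_left _ (Nat.pow_le_pow_left (Nat.mul_le_mul_right _ hab) _)
  obtain ⟨f, hf⟩ : ∃ f : ℕ → ℝ, f = fun p : ℕ =>
    @ite _ (p ∈ PS F N A (L * N ^ (e + 2))) (Classical.propDecidable _) (Real.log p) 0 := ⟨_, rfl⟩
  obtain ⟨Er, hEr⟩ : ∃ Er, Er = C₀ * (L * (N : ℝ) ^ (((e : ℝ) + 2) / 2)) := ⟨_, rfl⟩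
  have hcell : ∀ i ∈ Ico K (K ^ 2), (1 - 3 / (K : ℝ)) * (1 - 4 / (K : ℝ)) * (A * M) - Er ≤
      ∑ p ∈ Ioc (x i) (x (i + 1)), f p := by
    intro i hi
    rw [Finset.mem_Ico] at hi
    rw [hx, hf, hEr]
    exact cell he2 hL1 hC happ hs K X₁ B x₂ C₀ ε ε' hK6n hε'0 hε'1 hε'2 hX₁ hx₂ hC₀ hC₀0 hB N A M c1 hA1 hA2 hN1
      hM1 hMK hKM hAbig hApos i hi.1 hi.2
  -- summation over the cells
  have hsum : ((K : ℝ) ^ 2 - K) * ((1 - 3 / (K : ℝ)) * (1 - 4 / (K : ℝ)) * (A * M) - Er) ≤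
      (((e + 2 : ℕ) : ℝ) * Real.log N + Real.log L) * ∑ a ∈ Icc 1 A, (P F a N : ℝ) := by
    have hKK : K ≤ K ^ 2 := Nat.le_self_pow (by norm_num) K
    calc ((K : ℝ) ^ 2 - K) * ((1 - 3 / (K : ℝ)) * (1 - 4 / (K : ℝ)) * (A * M) - Er)
        = ∑ i ∈ Ico K (K ^ 2), ((1 - 3 / (K : ℝ)) * (1 - 4 / (K : ℝ)) * (A * M) - Er) := by
          rw [Finset.sum_const, Nat.card_Ico, nsmul_eq_mul, Nat.cast_sub hKK]
          push_cast
          ring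
      _ ≤ ∑ i ∈ Ico K (K ^ 2), ∑ p ∈ Ioc (x i) (x (i + 1)), f p := Finset.sum_le_sum hcell
      _ = ∑ p ∈ Ioc (x K) (x (K ^ 2)), f p := sum_Ioc_chain x hxmono f K (K ^ 2) hKK
      _ ≤ ∑ p ∈ PS F N A (L * N ^ (e + 2)), Real.log p := by
          rw [hf]
          exact sum_ite_le (PS F N A (L * N ^ (e + 2))) (fun p => p ∈ PS F N A (L * N ^ (e + 2)))
            (fun p hp => hp) (x K) (x (K ^ 2))
      _ ≤ _ := log_PS F N A L (e + 2) hN1 hL1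
  push_cast at hsum
  have h9 : A * ((B : ℝ) + (K : ℝ) ^ 2) ≤ η / 8 * (A * N) := by
    have : (B : ℝ) + (K : ℝ) ^ 2 ≤ η / 8 * N := by
      rw [div_le_iff₀ hη] at c3
      linarith
    calc A * ((B : ℝ) + (K : ℝ) ^ 2) ≤ A * (η / 8 * N) := by gcongr
      _ = _ := by ring
  have h10 : ((K : ℝ) ^ 2 - K) * Er ≤ η / 8 * (A * N) := by
    have h11 : (K : ℝ) ^ 2 * C₀ * L ≤ η / 8 * (N : ℝ) ^ (1 / 2 : ℝ) := by
      rw [div_le_iff₀ hη] at c4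
      linarith
    have h12 : (N : ℝ) ^ (1 / 2 : ℝ) * (N : ℝ) ^ (((e : ℝ) + 2) / 2) ≤ A * N := by
      calc (N : ℝ) ^ (1 / 2 : ℝ) * (N : ℝ) ^ (((e : ℝ) + 2) / 2) =
            (N : ℝ) ^ (1 / 2 + ((e : ℝ) + 2) / 2) := by rw [← Real.rpow_add hN0]
        _ ≤ (N : ℝ) ^ ((3 / 4 * ((e : ℝ) + 2) - 1 + ε) + 1) := by
            apply Real.rpow_le_rpow_of_exponent_le hNr
            linarith
        _ = (N : ℝ) ^ (3 / 4 * ((e : ℝ) + 2) - 1 + ε) * N := by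
            rw [Real.rpow_add hN0, Real.rpow_one]
        _ ≤ A * N := by gcongr
    have hEr0 : 0 ≤ Er := by rw [hEr]; positivity
    calc ((K : ℝ) ^ 2 - K) * Er ≤ (K : ℝ) ^ 2 * Er := by
          apply mul_le_mul_of_nonneg_right _ hEr0
          linarith
      _ = ((K : ℝ) ^ 2 * C₀ * L) * (N : ℝ) ^ (((e : ℝ) + 2) / 2) := by rw [hEr]; ring
      _ ≤ (η / 8 * (N : ℝ) ^ (1 / 2 : ℝ)) * (N : ℝ) ^ (((e : ℝ) + 2) / 2) := by gcongr
      _ = η / 8 * ((N : ℝ) ^ (1 / 2 : ℝ) * (N : ℝ) ^ (((e : ℝ) + 2) / 2)) := by ring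
      _ ≤ η / 8 * (A * N) := by gcongr
  have hfin := fin_alg K A M N B η Er hK6 hA0 hM0.le hN0.le hη (Nat.cast_nonneg _) hKη hMK2 h9 h10
  have hlogL : 0 ≤ Real.log L := Real.log_nonneg hL1r
  have hlogN : 0 < Real.log N := by
    apply Real.log_pos
    have : 1 < N := by
      have : 2 ≤ K ^ 2 * (X₁ + ⌈x₂⌉₊ + B + 2) := by
        calc 2 = 1 * 2 := by norm_num
          _ ≤ K ^ 2 * (X₁ + ⌈x₂⌉₊ + B + 2) := Nat.mul_le_mul hK2pos (by omega)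
      omega
    exact_mod_cast this
  exact log_alg e (A * N) (Real.log N) (Real.log L) _ η he0 (by positivity) hlogN hlogL hη
    (by
      rw [div_le_iff₀ hη] at c5
      linarith) (hfin.trans hsum)

end Run7.h994.BPD
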